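import Mathlib

set_option autoImplicit false

namespace Pool.Agent.H607R3.PS

/-- The algebra `T[x,w]/(x^2 - α x - β w, x w - γ x, w^2 - γ w)`, free with basis `1, x, w`. -/
@[ext] structure RR (T : Type) [CommRing T] (α β γ : T) where
  /-- coordinate of 1 -/
  a : T
  /-- coordinate of x -/
  b : T
  /-- coordinate of w -/
  c : T

namespace RR

variable {T : Type} [CommRing T] {α β γ : T}

instance : Zero (RR T α β γ) := ⟨⟨0, 0, 0⟩⟩
instance : One (RR T α β γ) := ⟨⟨1, 0, 0⟩⟩
instance : Add (RR T α β γ) := ⟨fun u v => ⟨u.a + v.a, u.b + v.b, u.c + v.c⟩⟩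
instance : Neg (RR T α β γ) := ⟨fun u => ⟨-u.a, -u.b, -u.c⟩⟩
instance : Sub (RR T α β γ) := ⟨fun u v => ⟨u.a - v.a, u.b - v.b, u.c - v.c⟩⟩
instance : Mul (RR T α β γ) := ⟨fun u v => ⟨u.a * v.a,
  u.a * v.b + u.b * v.a + α * (u.b * v.b) + γ * (u.b * v.c + u.c * v.b),
  u.a * v.c + u.c * v.a + β * (u.b * v.b) + γ * (u.c * v.c)⟩⟩
instance : SMul ℕ (RR T α β γ) := ⟨fun n u => ⟨n • u.a, n • u.b, n • u.c⟩⟩
instance : SMul ℤ (RR T α β γ) := ⟨fun n u => ⟨n • u.a, n • u.b, n • u.c⟩⟩

@[simp] lemma zero_a : (0 : RR T α β γ).a = 0 := rfl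
@[simp] lemma zero_b : (0 : RR T α β γ).b = 0 := rfl
@[simp] lemma zero_c : (0 : RR T α β γ).c = 0 := rfl
@[simp] lemma one_a : (1 : RR T α β γ).a = 1 := rfl
@[simp] lemma one_b : (1 : RR T α β γ).b = 0 := rfl
@[simp] lemma one_c : (1 : RR T α β γ).c = 0 := rfl
@[simp] lemma add_a (u v : RR T α β γ) : (u + v).a = u.a + v.a := rfl
@[simp] lemma add_b (u v : RR T α β γ) : (u + v).b = u.b + v.b := rfl
@[simp] lemma add_c (u v : RR T α β γ) : (u + v).c = u.c + v.c := rfl
@[simp] lemma neg_a (u : RR T α β γ) : (-u).a = -u.a := rfl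
@[simp] lemma neg_b (u : RR T α β γ) : (-u).b = -u.b := rfl
@[simp] lemma neg_c (u : RR T α β γ) : (-u).c = -u.c := rfl
@[simp] lemma sub_a (u v : RR T α β γ) : (u - v).a = u.a - v.a := rfl
@[simp] lemma sub_b (u v : RR T α β γ) : (u - v).b = u.b - v.b := rfl
@[simp] lemma sub_c (u v : RR T α β γ) : (u - v).c = u.c - v.c := rfl
@[simp] lemma mul_a (u v : RR T α β γ) : (u * v).a = u.a * v.a := rfl
@[simp] lemma mul_b (u v : RR T α β γ) : (u * v).b =
  u.a * v.b + u.b * v.a + α * (u.b * v.b) + γ * (u.b * v.c + u.c * v.b) := rfl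
@[simp] lemma mul_c (u v : RR T α β γ) : (u * v).c =
  u.a * v.c + u.c * v.a + β * (u.b * v.b) + γ * (u.c * v.c) := rfl
@[simp] lemma nsmul_a (n : ℕ) (u : RR T α β γ) : (n • u).a = n • u.a := rfl
@[simp] lemma nsmul_b (n : ℕ) (u : RR T α β γ) : (n • u).b = n • u.b := rfl
@[simp] lemma nsmul_c (n : ℕ) (u : RR T α β γ) : (n • u).c = n • u.c := rfl
@[simp] lemma zsmul_a (n : ℤ) (u : RR T α β γ) : (n • u).a = n • u.a := rfl
@[simp] lemma zsmul_b (n : ℤ) (u : RR T α β γ) : (n • u).b = n • u.b := rfl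
@[simp] lemma zsmul_c (n : ℤ) (u : RR T α β γ) : (n • u).c = n • u.c := rfl

/-- coordinates as a product -/
def toProd (u : RR T α β γ) : T × T × T := (u.a, u.b, u.c)

lemma toProd_injective : Function.Injective (toProd : RR T α β γ → T × T × T) := by
  intro u v h
  simp only [toProd, Prod.mk.injEq] at h
  exact RR.ext h.1 h.2.1 h.2.2

instance : AddCommGroup (RR T α β γ) :=
  toProd_injective.addCommGroup toProd rfl (fun _ _ => rfl) (fun _ => rfl) (fun _ _ => rfl)
    (fun _ _ => rfl) (fun _ _ => rfl)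

instance : CommRing (RR T α β γ) :=
  { (inferInstance : AddCommGroup (RR T α β γ)) with
    mul := (· * ·)
    one := 1
    left_distrib := by intro u v w; ext <;> simp <;> ring
    right_distrib := by intro u v w; ext <;> simp <;> ring
    zero_mul := by intro u; ext <;> simp
    mul_zero := by intro u; ext <;> simp
    mul_assoc := by intro u v w; ext <;> simp <;> ring
    one_mul := by intro u; ext <;> simp
    mul_one := by intro u; ext <;> simp
    mul_comm := by intro u v; ext <;> simp <;> ring }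

/-- the structure map -/
def emb : T →+* RR T α β γ where
  toFun t := ⟨t, 0, 0⟩
  map_one' := rfl
  map_zero' := rfl
  map_mul' := by intro u v; ext <;> simp
  map_add' := by intro u v; ext <;> simp

@[simp] lemma emb_a (t : T) : (emb t : RR T α β γ).a = t := rfl
@[simp] lemma emb_b (t : T) : (emb t : RR T α β γ).b = 0 := rfl
@[simp] lemma emb_c (t : T) : (emb t : RR T α β γ).c = 0 := rfl

instance : Algebra T (RR T α β γ) := RingHom.toAlgebra (emb : T →+* RR T α β γ)

lemma algebraMap_eq (t : T) : algebraMap T (RR T α β γ) t = (emb t : RR T α β γ) := rfl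

/-- the element x -/
def x : RR T α β γ := ⟨0, 1, 0⟩
/-- the element w -/
def w : RR T α β γ := ⟨0, 0, 1⟩
/-- the element y -/
def y : RR T α β γ := ⟨-α, 1, 0⟩
/-- the element z -/
def z : RR T α β γ := ⟨β, 0, 0⟩
/-- the element s -/
def s : RR T α β γ := ⟨γ, 0, -1⟩

lemma xy : (x * y : RR T α β γ) = z * w := by
  ext <;> simp [x, y, z, w]
lemma xs : (x * s : RR T α β γ) = 0 := by
  ext <;> simp [x, s]
lemma ws : (w * s : RR T α β γ) = 0 := by
  ext <;> simp [w, s]
lemma x_sub_y : (x - y : RR T α β γ) = (emb α : RR T α β γ) := by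
  ext <;> simp [x, y]
lemma z_eq : (z : RR T α β γ) = (emb β : RR T α β γ) := by
  ext <;> simp [z]
lemma s_add_w : (s + w : RR T α β γ) = (emb γ : RR T α β γ) := by
  ext <;> simp [w, s]

lemma decomp (u : RR T α β γ) :
    u = (emb u.a : RR T α β γ) + (emb u.b : RR T α β γ) * x + (emb u.c : RR T α β γ) * w := by
  ext <;> simp [x, w]

@[simp] lemma smul_a (t : T) (u : RR T α β γ) : (t • u).a = t * u.a := by
  rw [Algebra.smul_def, algebraMap_eq]; simp
@[simp] lemma smul_b (t : T) (u : RR T α β γ) : (t • u).b = t * u.b := by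
  rw [Algebra.smul_def, algebraMap_eq]; simp
@[simp] lemma smul_c (t : T) (u : RR T α β γ) : (t • u).c = t * u.c := by
  rw [Algebra.smul_def, algebraMap_eq]; simp

/-- the coordinate parametrisation -/
def param : (Fin 3 → T) →ₗ[T] RR T α β γ where
  toFun v := ⟨v 0, v 1, v 2⟩
  map_add' := by intro u v; ext <;> simp
  map_smul' := by intro u v; ext <;> simp

instance : Module.Finite T (RR T α β γ) :=
  Module.Finite.of_surjective (param : (Fin 3 → T) →ₗ[T] RR T α β γ)
    (fun u => ⟨![u.a, u.b, u.c], by ext <;> simp [param]⟩)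

instance [IsNoetherianRing T] : IsNoetherianRing (RR T α β γ) :=
  IsNoetherianRing.of_finite T (RR T α β γ)

end RR

end Pool.Agent.H607R3.PS
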