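import Mathlib
import Pool.Agent.H607R3.PS.Ring

set_option autoImplicit false

namespace Pool.Agent.H607R3.PS

open IsLocalRing

/-- the 7 generators -/
def gens {R : Type} [CommRing R] (x y z w s : R) : Fin 7 → R :=
  ![y ^ 3, z ^ 2, y ^ 2 * (z + w ^ 2), x ^ 2 + s ^ 2 * z, w ^ 4 + s * y * z,
    x * (z + w ^ 3) + s ^ 2 * y, y * w ^ 2 * (z + w) + s * y ^ 2]

/-- the ideal -/
def cI {R : Type} [CommRing R] (x y z w s : R) : Ideal R := Ideal.span (Set.range (gens x y z w s))

/-- finite projective resolution, as in the frozen statements -/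
def FinRes (R M : Type) [CommRing R] [AddCommGroup M] [Module R M] : Prop :=
  ∃ P : CategoryTheory.ProjectiveResolution (ModuleCat.of R M), ∃ n : ℕ,
    ∀ i : ℕ, n ≤ i → CategoryTheory.Limits.IsZero (P.complex.X i)

/-- Task Res: an exact sequence 0 -> R^n3 -> R^n2 -> R^n1 -> R gives a finite projective
resolution of the cokernel. -/
def TaskRes : Prop :=
  ∀ (R : Type) [CommRing R] (n1 n2 n3 : ℕ) (d1 : (Fin n1 → R) →ₗ[R] R)
    (d2 : (Fin n2 → R) →ₗ[R] (Fin n1 → R)) (d3 : (Fin n3 → R) →ₗ[R] (Fin n2 → R)),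
    (∀ u, d1 (d2 u) = 0) → (∀ u, d2 (d3 u) = 0) → Function.Injective d3 →
    (∀ v, d2 v = 0 → ∃ u, d3 u = v) → (∀ v, d1 v = 0 → ∃ u, d2 u = v) →
    FinRes R (R ⧸ (LinearMap.range d1 : Ideal R))

/-- Task Loc. -/
def TaskLoc : Prop :=
  ∀ (T : Type) [CommRing T] [IsLocalRing T] (α β γ : T), α ∈ maximalIdeal T →
    β ∈ maximalIdeal T → γ ∈ maximalIdeal T → IsLocalRing (RR T α β γ)

/-- regularity package for three elements of a ring -/
structure Reg3 {R : Type} [CommRing R] (F G H : R) : Prop where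
  hF : ∀ a : R, F * a = 0 → a = 0
  hG : ∀ a b : R, G * a = F * b → ∃ a' : R, a = F * a'
  hH : ∀ c p q : R, H * c = F * p + G * q → ∃ p' q' : R, c = F * p' + G * q'

/-- base ring package -/
structure Base (T : Type) [CommRing T] [IsLocalRing T] [IsNoetherianRing T] [IsDomain T]
    (α β γ : T) : Prop where
  max : maximalIdeal T = Ideal.span {α, β, γ}
  prime2 : (Ideal.span {α, β} : Ideal T).IsPrime
  notMem : γ ∉ (Ideal.span {α, β} : Ideal T)
  reg : Reg3 (α ^ 4) (β ^ 2) (γ ^ 4)
  dim : ringKrullDim T = 3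

/-- Task Base: e.g. T = Q[[X]][[X]][[X]]. -/
def TaskBase : Prop :=
  ∃ (T : Type) (_ : CommRing T) (_ : IsLocalRing T) (_ : IsNoetherianRing T) (_ : IsDomain T)
    (α β γ : T), Base T α β γ

open RR in
/-- Task Dim: the dimension count for the dimension inequality. -/
def TaskDim : Prop :=
  ∀ (T : Type) [CommRing T] [IsLocalRing T] [IsNoetherianRing T] [IsDomain T] (α β γ : T),
    Base T α β γ →
    ringKrullDim (RR T α β γ) <
      Module.supportDim (RR T α β γ)
        (RR T α β γ ⧸ cI (x : RR T α β γ) y z w s) +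
      Module.supportDim (RR T α β γ) (RR T α β γ ⧸ (Ideal.span {s} : Ideal (RR T α β γ)))

open RR TensorProduct in
/-- Task Len: the tensor product has finite length. -/
def TaskLen : Prop :=
  ∀ (T : Type) [CommRing T] [IsLocalRing T] [IsNoetherianRing T] [IsDomain T] (α β γ : T),
    Base T α β γ →
    IsFiniteLength (RR T α β γ)
      ((RR T α β γ ⧸ cI (x : RR T α β γ) y z w s) ⊗[RR T α β γ]
        (RR T α β γ ⧸ (Ideal.span {s} : Ideal (RR T α β γ))))

open RR in
/-- the second ring `RR[[t]]/(s t)` -/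
abbrev RP (T : Type) [CommRing T] (α β γ : T) : Type :=
  PowerSeries (RR T α β γ) ⧸
    (Ideal.span {PowerSeries.C (s : RR T α β γ) * PowerSeries.X} :
      Ideal (PowerSeries (RR T α β γ)))

/-- the structure map of `RP` -/
noncomputable def toRP {T : Type} [CommRing T] {α β γ : T} : RR T α β γ →+* RP T α β γ :=
  (Ideal.Quotient.mk _).comp (PowerSeries.C (R := RR T α β γ))

open RR in
/-- Task RegP: regularity of F, G, H on the second ring. -/
def TaskRegP : Prop :=
  ∀ (T : Type) [CommRing T] (α β γ : T), Reg3 (α ^ 4) (β ^ 2) (γ ^ 4) →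
    Reg3 (toRP (RR.emb α : RR T α β γ) ^ 4) (toRP (RR.emb β : RR T α β γ) ^ 2)
      (toRP (RR.emb γ : RR T α β γ) ^ 4)

open RR in
/-- the ideal of the second ring -/
noncomputable def cP (T : Type) [CommRing T] (α β γ : T) : Ideal (RP T α β γ) :=
  cI (toRP (x : RR T α β γ)) (toRP y) (toRP z) (toRP w) (toRP s)

/-- Task DimP: dimensions for the grade conjecture. -/
def TaskDimP : Prop :=
  ∀ (T : Type) [CommRing T] [IsLocalRing T] [IsNoetherianRing T] [IsDomain T] (α β γ : T),
    Base T α β γ →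
    (2 : WithBot ℕ∞) + ringKrullDim (RP T α β γ ⧸ cP T α β γ) < ringKrullDim (RP T α β γ)

/-- Task GradeP: no weakly regular sequence of length three in the ideal. -/
def TaskGradeP : Prop :=
  ∀ (T : Type) [CommRing T] [IsLocalRing T] [IsNoetherianRing T] [IsDomain T] (α β γ : T),
    Base T α β γ →
    ¬ ∃ rs : List (RP T α β γ), rs.length = 3 ∧ (∀ r ∈ rs, r ∈ cP T α β γ) ∧
      RingTheory.Sequence.IsWeaklyRegular (RP T α β γ) rs

end Pool.Agent.H607R3.PS
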