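import Mathlib
import Pool.Agent.H607R3.PS.Stmts

set_option autoImplicit false
set_option linter.all false

namespace Pool.Agent.H607R3.PS

variable {R : Type} [CommRing R]

/-- first map -/
def d1f (x y z w s : R) (v : Fin 7 → R) : R :=
  (y ^ 3) * v 0 + (z ^ 2) * v 1 + (y ^ 2 * z + y ^ 2 * w ^ 2) * v 2 + (x ^ 2 + z * s ^ 2) * v 3 + (y * z * s + w ^ 4) * v 4 + (x * z + y * s ^ 2 + x * w ^ 3) * v 5 + (y ^ 2 * s + y * w ^ 3 + y * z * w ^ 2) * v 6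

/-- second map -/
def d2f (x y z w s : R) (u : Fin 10 → R) : Fin 7 → R :=
  ![(z + w ^ 2) * u 0 + (x * w) * u 1 + (-s + x - x * w) * u 9,
    (y ^ 2) * u 1 + (-s ^ 2) * u 3 + (-y * w) * u 4 + (y * w - y * w ^ 2) * u 5 + (-y * s + w ^ 3) * u 6 + (-w + w ^ 3) * u 7 + (-x) * u 8,
    (-y) * u 0 + (-z) * u 1 + (-s + x) * u 4 + (-s - x) * u 5 + (-w) * u 9,
    (y) * u 2 + (z + w ^ 3) * u 3,
    (-s + x) * u 2 + (y) * u 4 + (z) * u 6 + (-s + x * w ^ 2) * u 8,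
    (-w) * u 2 + (-x) * u 3 + (y) * u 7 + (z - w ^ 3) * u 8,
    (-w) * u 4 + (z) * u 5 + (-x) * u 6 + (-s - x) * u 7 + (y) * u 9]

/-- third map -/
def d3f (x y z w s : R) (t : Fin 4 → R) : Fin 10 → R :=
  ![(s - x + x * w) * t 3,
    (-s + x - x * w) * t 1 + (w - w ^ 2) * t 3,
    (z + w ^ 3) * t 0,
    (-y) * t 0,
    (z - z * w) * t 1 + (-s + x) * t 2,
    (w ^ 2) * t 1 + (s + x) * t 2 + (-y) * t 3,
    (s - x) * t 0 + (-y + y * w) * t 1 + (-w + w ^ 3) * t 2,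
    (x) * t 0 + (z - w ^ 3) * t 2,
    (-w) * t 0 + (-y) * t 2,
    (-x * w) * t 1 + (z) * t 3]

lemma comp12 (x y z w s u0 u1 u2 u3 u4 u5 u6 u7 u8 u9 : R) (hxy : x * y = z * w) (hxs : x * s = 0)
    (hws : w * s = 0) :
    (y ^ 3) * ((z + w ^ 2) * u0 + (x * w) * u1 + (-s + x - x * w) * u9) + (z ^ 2) * ((y ^ 2) * u1 + (-s ^ 2) * u3 + (-y * w) * u4 + (y * w - y * w ^ 2) * u5 + (-y * s + w ^ 3) * u6 + (-w + w ^ 3) * u7 + (-x) * u8) + (y ^ 2 * z + y ^ 2 * w ^ 2) * ((-y) * u0 + (-z) * u1 + (-s + x) * u4 + (-s - x) * u5 + (-w) * u9) + (x ^ 2 + z * s ^ 2) * ((y) * u2 + (z + w ^ 3) * u3) + (y * z * s + w ^ 4) * ((-s + x) * u2 + (y) * u4 + (z) * u6 + (-s + x * w ^ 2) * u8) + (x * z + y * s ^ 2 + x * w ^ 3) * ((-w) * u2 + (-x) * u3 + (y) * u7 + (z - w ^ 3) * u8) + (y ^ 2 * s + y * w ^ 3 + y * z * w ^ 2) * ((-w) * u4 + (z) * u5 + (-x) * u6 + (-s - x) *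 u7 + (y) * u9) =
      0 := by
  linear_combination (exp := 1) ((y ^ 2 * w) * u1 + (x + z * s) * u2 + (-s ^ 2) * u3 + (y * z + y * w ^ 2) * u4 + (-y * z - y * w ^ 2) * u5 + (-y * s - w ^ 3 - z * w ^ 2) * u6 + (z - y * s - z * w ^ 2) * u7 + (z * w ^ 2 * s) * u8 + (y ^ 2 - y ^ 2 * w) * u9) * hxy + ((z ^ 2 - y * s - w ^ 3) * u2 + (-z * s + z * w ^ 2 * s) * u3 + (-y ^ 2 - y ^ 2 * w) * u4 + (-y ^ 2 * w) * u5 + (-y * z) * u6 + (-y * z - y * w ^ 2 - y * z * w) * u7 + (-w ^ 3 + z ^ 2 * w ^ 2 - y * w ^ 2 * s) * u8) * hws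

lemma comp23_0 (x y z w s t0 t1 t2 t3 : R) (hxy : x * y = z * w) (hxs : x * s = 0)
    (hws : w * s = 0) :
    (z + w ^ 2) * ((s - x + x * w) * t3) + (x * w) * ((-s + x - x * w) * t1 + (w - w ^ 2) * t3) + (-s + x - x * w) * ((-x * w) * t1 + (z) * t3) =
      0 := by
  linear_combination (exp := 1) ((w) * t3) * hws

lemma comp23_1 (x y z w s t0 t1 t2 t3 : R) (hxy : x * y = z * w) (hxs : x * s = 0)
    (hws : w * s = 0) :
    (y ^ 2) * ((-s + x - x * w) * t1 + (w - w ^ 2) * t3) + (-s ^ 2) * ((-y) * t0) + (-y * w) * ((z - z * w) * t1 + (-s + x) * t2) + (y * w - y * w ^ 2) * ((w ^ 2) * t1 + (s + x) * t2 + (-y) * t3) + (-y * s + w ^ 3) * ((s - x) * t0 + (-y + y * w) * t1 + (-w + w ^ 3) * t2) + (-w + w ^ 3) * ((x) * t0 + (z - w ^ 3) * t2) + (-x) * ((-w) * t0 + (-y) * t2) =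
      0 := by
  linear_combination (exp := 1) ((s) * t0 + (y - y * w) * t1 + (1 - w ^ 2) * t2) * hxy + ((z + w ^ 2) * t0 + (-y ^ 2) * t1 + (3 * y - y * w - y * w ^ 2) * t2) * hws

lemma comp23_2 (x y z w s t0 t1 t2 t3 : R) (hxy : x * y = z * w) (hxs : x * s = 0)
    (hws : w * s = 0) :
    (-y) * ((s - x + x * w) * t3) + (-z) * ((-s + x - x * w) * t1 + (w - w ^ 2) * t3) + (-s + x) * ((z - z * w) * t1 + (-s + x) * t2) + (-s - x) * ((w ^ 2) * t1 + (s + x) * t2 + (-y) * t3) + (-w) * ((-x * w) * t1 + (z) * t3) =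
      0 := by
  linear_combination (exp := 1) ((2 - w) * t3) * hxy + ((-4) * t2) * hxs + ((-w + z) * t1) * hws

lemma comp23_3 (x y z w s t0 t1 t2 t3 : R) (hxy : x * y = z * w) (hxs : x * s = 0)
    (hws : w * s = 0) :
    (y) * ((z + w ^ 3) * t0) + (z + w ^ 3) * ((-y) * t0) =
      0 := by
  linear_combination (exp := 1) 0

lemma comp23_4 (x y z w s t0 t1 t2 t3 : R) (hxy : x * y = z * w) (hxs : x * s = 0)
    (hws : w * s = 0) :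
    (-s + x) * ((z + w ^ 3) * t0) + (y) * ((z - z * w) * t1 + (-s + x) * t2) + (z) * ((s - x) * t0 + (-y + y * w) * t1 + (-w + w ^ 3) * t2) + (-s + x * w ^ 2) * ((-w) * t0 + (-y) * t2) =
      0 := by
  linear_combination (exp := 1) ((1 - w ^ 2) * t2) * hxy + ((1 - w ^ 2) * t0) * hws

lemma comp23_5 (x y z w s t0 t1 t2 t3 : R) (hxy : x * y = z * w) (hxs : x * s = 0)
    (hws : w * s = 0) :
    (-w) * ((z + w ^ 3) * t0) + (-x) * ((-y) * t0) + (y) * ((x) * t0 + (z - w ^ 3) * t2) + (z - w ^ 3) * ((-w) * t0 + (-y) * t2) =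
      0 := by
  linear_combination (exp := 1) ((2) * t0) * hxy

lemma comp23_6 (x y z w s t0 t1 t2 t3 : R) (hxy : x * y = z * w) (hxs : x * s = 0)
    (hws : w * s = 0) :
    (-w) * ((z - z * w) * t1 + (-s + x) * t2) + (z) * ((w ^ 2) * t1 + (s + x) * t2 + (-y) * t3) + (-x) * ((s - x) * t0 + (-y + y * w) * t1 + (-w + w ^ 3) * t2) + (-s - x) * ((x) * t0 + (z - w ^ 3) * t2) + (y) * ((-x * w) * t1 + (z) * t3) =
      0 := by
  linear_combination (exp := 1) ((1 - 2 * w) * t1) * hxy + ((-2) * t0) * hxs + ((1 + w ^ 2) * t2) * hws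

/-- homotopy -/
def s1_0 (x y z w s : R) (v : Fin 7 → R) : Fin 10 → R :=
  ![(-z + z * w) * v 1 + (-y ^ 2 + y ^ 2 * w) * v 2 + (-s ^ 2) * v 3 + (-w ^ 2 - y * s + w ^ 3) * v 4 + (-s - x * w + x * w ^ 2) * v 5 + (-y * w + y * w ^ 2) * v 6,
    (y - y * w) * v 1 + (s - x + x * w) * v 3 + (y * w - y * w ^ 2) * v 4,
    (y ^ 2 - y ^ 2 * w) * v 3,
    0,
    (-z + z * w + y * s) * v 3 + (y ^ 2 - y ^ 2 * w) * v 4,
    (w - w ^ 2) * v 3 + (y - y * w ^ 2) * v 5,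
    (y - 2 * y * w + y * w ^ 2) * v 3,
    (y * w - y * w ^ 2) * v 3 + (y ^ 2 - y ^ 2 * w) * v 5,
    0,
    (-x + x * w) * v 3 + (y * w - y * w ^ 2) * v 4 + (-z + z * w + y * s) * v 5 + (y ^ 2 - y ^ 2 * w) * v 6]

/-- homotopy -/
def s2_0 (x y z w s : R) (u : Fin 10 → R) : Fin 4 → R :=
  ![(-y ^ 2 + y ^ 2 * w) * u 3,
    (y - y * w) * u 2 + (z - w ^ 2 - y * s + w ^ 3) * u 3 + (-y ^ 2) * u 6 + (y * w - y * w ^ 3) * u 8,
    (y * w - y * w ^ 2) * u 3 + (-y ^ 2 + y ^ 2 * w) * u 8,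
    (x * w) * u 3 + (-y ^ 2 + y ^ 2 * w) * u 5 + (-y * w ^ 2) * u 6 + (y - y * w ^ 2) * u 7 + (z - z * w - y * s) * u 8]

lemma h1_0_0 (x y z w s v0 v1 v2 v3 v4 v5 v6 : R) (hxy : x * y = z * w) (hxs : x * s = 0)
    (hws : w * s = 0) :
    (1 - w) * (y ^ 3) * v0 =
      (z + w ^ 2) * ((-z + z * w) * v1 + (-y ^ 2 + y ^ 2 * w) * v2 + (-s ^ 2) * v3 + (-w ^ 2 - y * s + w ^ 3) * v4 + (-s - x * w + x * w ^ 2) * v5 + (-y * w + y * w ^ 2) * v6) + (x * w) * ((y - y * w) * v1 + (s - x + x * w) * v3 + (y * w - y * w ^ 2) * v4) + (-s + x - x * w) * ((-x + x * w) * v3 + (y * w - y * w ^ 2) * v4 + (-z + z * w + y * s) * v5 + (y ^ 2 - y ^ 2 * w) * v6) + (1 - w) * ((y ^ 3) * v0 + (z ^ 2) * v1 + (y ^ 2 * z + y ^ 2 * w ^ 2) * v2 + (x ^ 2 + z * s ^ 2) * v3 + (y * z * s + w ^ 4) * v4 + (x * z + y * s ^ 2 + x * w ^ 3) * v5 + (y ^ 2 * s + y * w ^ 3 + y * z * w ^ 2)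 * v6) := by
  linear_combination (exp := 1) ((-w + w ^ 2) * v1 + (-w + w ^ 2) * v4 + (-s + w * s) * v5 + (-y + 2 * y * w - y * w ^ 2) * v6) * hxy + ((-1) * v3) * hxs + ((w * s + z * s) * v3 + (y + y * z) * v4 + (w + z * w + y * s) * v5) * hws

lemma h1_0_1 (x y z w s v0 v1 v2 v3 v4 v5 v6 : R) (hxy : x * y = z * w) (hxs : x * s = 0)
    (hws : w * s = 0) :
    (1 - w) * (y ^ 3) * v1 =
      (y ^ 2) * ((y - y * w) * v1 + (s - x + x * w) * v3 + (y * w - y * w ^ 2) * v4) + (-s ^ 2) * (0) + (-y * w) * ((-z + z * w + y * s) * v3 + (y ^ 2 - y ^ 2 * w) * v4) + (y * w - y * w ^ 2) * ((w - w ^ 2) * v3 + (y - y * w ^ 2) * v5) + (-y * s + w ^ 3) * ((y - 2 * y * w + y * w ^ 2) * v3) + (-w + w ^ 3) * ((y * w - y * w ^ 2) * v3 + (y ^ 2 - y ^ 2 * w) * v5) + (-x) * (0) := by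
  linear_combination (exp := 1) ((y - y * w) * v3) * hxy + ((-y ^ 2 + y ^ 2 * w) * v3) * hws

lemma h1_0_2 (x y z w s v0 v1 v2 v3 v4 v5 v6 : R) (hxy : x * y = z * w) (hxs : x * s = 0)
    (hws : w * s = 0) :
    (1 - w) * (y ^ 3) * v2 =
      (-y) * ((-z + z * w) * v1 + (-y ^ 2 + y ^ 2 * w) * v2 + (-s ^ 2) * v3 + (-w ^ 2 - y * s + w ^ 3) * v4 + (-s - x * w + x * w ^ 2) * v5 + (-y * w + y * w ^ 2) * v6) + (-z) * ((y - y * w) * v1 + (s - x + x * w) * v3 + (y * w - y * w ^ 2) * v4) + (-s + x) * ((-z + z * w + y * s) * v3 + (y ^ 2 - y ^ 2 * w) * v4) + (-s - x) * ((w - w ^ 2) * v3 + (y - y * w ^ 2) * v5) + (-w) * ((-x + x * w) * v3 + (y * w - y * w ^ 2) * v4 + (-z + z * w + y * s) * v5 + (y ^ 2 - y ^ 2 * w) * v6) := by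
  linear_combination (exp := 1) ((-s) * v3 + (-y + y * w) * v4 + (1 - w) * v5) * hxy + ((1 - w) * v3 + (-y ^ 2) * v4 + (y - y * w) * v5) * hws

lemma h1_0_3 (x y z w s v0 v1 v2 v3 v4 v5 v6 : R) (hxy : x * y = z * w) (hxs : x * s = 0)
    (hws : w * s = 0) :
    (1 - w) * (y ^ 3) * v3 =
      (y) * ((y ^ 2 - y ^ 2 * w) * v3) + (z + w ^ 3) * (0) := by
  linear_combination (exp := 1) 0

lemma h1_0_4 (x y z w s v0 v1 v2 v3 v4 v5 v6 : R) (hxy : x * y = z * w) (hxs : x * s = 0)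
    (hws : w * s = 0) :
    (1 - w) * (y ^ 3) * v4 =
      (-s + x) * ((y ^ 2 - y ^ 2 * w) * v3) + (y) * ((-z + z * w + y * s) * v3 + (y ^ 2 - y ^ 2 * w) * v4) + (z) * ((y - 2 * y * w + y * w ^ 2) * v3) + (-s + x * w ^ 2) * (0) := by
  linear_combination (exp := 1) ((-y + y * w) * v3) * hxy + ((-y ^ 2) * v3) * hws

lemma h1_0_5 (x y z w s v0 v1 v2 v3 v4 v5 v6 : R) (hxy : x * y = z * w) (hxs : x * s = 0)
    (hws : w * s = 0) :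
    (1 - w) * (y ^ 3) * v5 =
      (-w) * ((y ^ 2 - y ^ 2 * w) * v3) + (-x) * (0) + (y) * ((y * w - y * w ^ 2) * v3 + (y ^ 2 - y ^ 2 * w) * v5) + (z - w ^ 3) * (0) := by
  linear_combination (exp := 1) 0

lemma h1_0_6 (x y z w s v0 v1 v2 v3 v4 v5 v6 : R) (hxy : x * y = z * w) (hxs : x * s = 0)
    (hws : w * s = 0) :
    (1 - w) * (y ^ 3) * v6 =
      (-w) * ((-z + z * w + y * s) * v3 + (y ^ 2 - y ^ 2 * w) * v4) + (z) * ((w - w ^ 2) * v3 + (y - y * w ^ 2) * v5) + (-x) * ((y - 2 * y * w + y * w ^ 2) * v3) + (-s - x) * ((y * w - y * w ^ 2) * v3 + (y ^ 2 - y ^ 2 * w) * v5) + (y) * ((-x + x * w) * v3 + (y * w - y * w ^ 2) * v4 + (-z + z * w + y * s) * v5 + (y ^ 2 - y ^ 2 * w) * v6) := by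
  linear_combination (exp := 1) ((2 - 2 * w) * v3 + (y - y * w) * v5) * hxy + ((2 * y - y * w) * v3 + (-y ^ 2) * v5) * hws

lemma h2_0_0 (x y z w s u0 u1 u2 u3 u4 u5 u6 u7 u8 u9 : R) (hxy : x * y = z * w) (hxs : x * s = 0)
    (hws : w * s = 0) :
    (1 - w) * (y ^ 3) * u0 =
      ((-z + z * w) * ((y ^ 2) * u1 + (-s ^ 2) * u3 + (-y * w) * u4 + (y * w - y * w ^ 2) * u5 + (-y * s + w ^ 3) * u6 + (-w + w ^ 3) * u7 + (-x) * u8) + (-y ^ 2 + y ^ 2 * w) * ((-y) * u0 + (-z) * u1 + (-s + x) * u4 + (-s - x) * u5 + (-w) * u9) + (-s ^ 2) * ((y) * u2 + (z + w ^ 3) * u3) + (-w ^ 2 - y * s + w ^ 3) * ((-s + x) * u2 + (y) * u4 + (z) * u6 + (-s + x * w ^ 2) * u8) + (-s - x * w + x * w ^ 2) * ((-w) * u2 + (-x) * u3 + (y) * u7 + (z - w ^ 3) * u8) + (-y * w + y * w ^ 2) * ((-w) * u4 + (z) * u5 + (-x) * u6 + (-s - x) * u7 + (y) * u9)) + ((s - x + x * w) * ((x * w)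 * u3 + (-y ^ 2 + y ^ 2 * w) * u5 + (-y * w ^ 2) * u6 + (y - y * w ^ 2) * u7 + (z - z * w - y * s) * u8)) := by
  linear_combination (exp := 1) ((s) * u2 + (y - y * w) * u4 + (-2 * y + 3 * y * w - y * w ^ 2) * u5 + (-w + w ^ 3) * u6 + (1 - w - w ^ 2 + w ^ 3) * u7 + (-s + w * s + w ^ 2 * s) * u8) * hxy + ((-1 - w) * u3) * hxs + ((-1 - w + z + w ^ 2) * u2 + (z * s + w ^ 2 * s) * u3 + (y ^ 2) * u4 + (y * w + y * z) * u6 + (-y + 2 * y * w) * u7 + (-w + z * w + z * w ^ 2) * u8) * hws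

lemma h2_0_1 (x y z w s u0 u1 u2 u3 u4 u5 u6 u7 u8 u9 : R) (hxy : x * y = z * w) (hxs : x * s = 0)
    (hws : w * s = 0) :
    (1 - w) * (y ^ 3) * u1 =
      ((y - y * w) * ((y ^ 2) * u1 + (-s ^ 2) * u3 + (-y * w) * u4 + (y * w - y * w ^ 2) * u5 + (-y * s + w ^ 3) * u6 + (-w + w ^ 3) * u7 + (-x) * u8) + (s - x + x * w) * ((y) * u2 + (z + w ^ 3) * u3) + (y * w - y * w ^ 2) * ((-s + x) * u2 + (y) * u4 + (z) * u6 + (-s + x * w ^ 2) * u8)) + ((-s + x - x * w) * ((y - y * w) * u2 + (z - w ^ 2 - y * s + w ^ 3) * u3 + (-y ^ 2) * u6 + (y * w - y * w ^ 3) * u8) + (w - w ^ 2) * ((x * w) * u3 + (-y ^ 2 + y ^ 2 * w) * u5 + (-y * w ^ 2) * u6 + (y - y * w ^ 2) * u7 + (z - z * w - y * s) * u8)) := by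
  linear_combination (exp := 1) ((s - w * s) * u3 + (y - y * w) * u6 + (1 - 2 * w + w ^ 2) * u8) * hxy + ((-y * w) * u2 + (-w + z - z * w - y * s) * u3 + (-y ^ 2) * u6 + (3 * y - 2 * y * w - y * w ^ 2) * u8) * hws

lemma h2_0_2 (x y z w s u0 u1 u2 u3 u4 u5 u6 u7 u8 u9 : R) (hxy : x * y = z * w) (hxs : x * s = 0)
    (hws : w * s = 0) :
    (1 - w) * (y ^ 3) * u2 =
      ((y ^ 2 - y ^ 2 * w) * ((y) * u2 + (z + w ^ 3) * u3)) + ((z + w ^ 3) * ((-y ^ 2 + y ^ 2 * w) * u3)) := by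
  linear_combination (exp := 1) 0

lemma h2_0_3 (x y z w s u0 u1 u2 u3 u4 u5 u6 u7 u8 u9 : R) (hxy : x * y = z * w) (hxs : x * s = 0)
    (hws : w * s = 0) :
    (1 - w) * (y ^ 3) * u3 =
      (0) + ((-y) * ((-y ^ 2 + y ^ 2 * w) * u3)) := by
  linear_combination (exp := 1) 0

lemma h2_0_4 (x y z w s u0 u1 u2 u3 u4 u5 u6 u7 u8 u9 : R) (hxy : x * y = z * w) (hxs : x * s = 0)
    (hws : w * s = 0) :
    (1 - w) * (y ^ 3) * u4 =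
      ((-z + z * w + y * s) * ((y) * u2 + (z + w ^ 3) * u3) + (y ^ 2 - y ^ 2 * w) * ((-s + x) * u2 + (y) * u4 + (z) * u6 + (-s + x * w ^ 2) * u8)) + ((z - z * w) * ((y - y * w) * u2 + (z - w ^ 2 - y * s + w ^ 3) * u3 + (-y ^ 2) * u6 + (y * w - y * w ^ 3) * u8) + (-s + x) * ((y * w - y * w ^ 2) * u3 + (-y ^ 2 + y ^ 2 * w) * u8)) := by
  linear_combination (exp := 1) ((-y + y * w) * u2 + (-w + w ^ 2) * u3 + (y - y * w - y * w ^ 2 + y * w ^ 3) * u8) * hxy + ((-y ^ 2) * u2 + (y - y * w - y * z - y * w ^ 2) * u3) * hws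

lemma h2_0_5 (x y z w s u0 u1 u2 u3 u4 u5 u6 u7 u8 u9 : R) (hxy : x * y = z * w) (hxs : x * s = 0)
    (hws : w * s = 0) :
    (1 - w) * (y ^ 3) * u5 =
      ((w - w ^ 2) * ((y) * u2 + (z + w ^ 3) * u3) + (y - y * w ^ 2) * ((-w) * u2 + (-x) * u3 + (y) * u7 + (z - w ^ 3) * u8)) + ((w ^ 2) * ((y - y * w) * u2 + (z - w ^ 2 - y * s + w ^ 3) * u3 + (-y ^ 2) * u6 + (y * w - y * w ^ 3) * u8) + (s + x) * ((y * w - y * w ^ 2) * u3 + (-y ^ 2 + y ^ 2 * w) * u8) + (-y) * ((x * w) * u3 + (-y ^ 2 + y ^ 2 * w) * u5 + (-y * w ^ 2) * u6 + (y - y * w ^ 2) * u7 + (z - z * w - y * s) * u8)) := by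
  linear_combination (exp := 1) ((1) * u3 + (y - y * w) * u8) * hxy + ((-y + 2 * y * w) * u3 + (-y ^ 2) * u8) * hws

lemma h2_0_6 (x y z w s u0 u1 u2 u3 u4 u5 u6 u7 u8 u9 : R) (hxy : x * y = z * w) (hxs : x * s = 0)
    (hws : w * s = 0) :
    (1 - w) * (y ^ 3) * u6 =
      ((y - 2 * y * w + y * w ^ 2) * ((y) * u2 + (z + w ^ 3) * u3)) + ((s - x) * ((-y ^ 2 + y ^ 2 * w) * u3) + (-y + y * w) * ((y - y * w) * u2 + (z - w ^ 2 - y * s + w ^ 3) * u3 + (-y ^ 2) * u6 + (y * w - y * w ^ 3) * u8) + (-w + w ^ 3) * ((y * w - y * w ^ 2) * u3 + (-y ^ 2 + y ^ 2 * w) * u8)) := by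
  linear_combination (exp := 1) ((-y + y * w) * u3) * hxy

lemma h2_0_7 (x y z w s u0 u1 u2 u3 u4 u5 u6 u7 u8 u9 : R) (hxy : x * y = z * w) (hxs : x * s = 0)
    (hws : w * s = 0) :
    (1 - w) * (y ^ 3) * u7 =
      ((y * w - y * w ^ 2) * ((y) * u2 + (z + w ^ 3) * u3) + (y ^ 2 - y ^ 2 * w) * ((-w) * u2 + (-x) * u3 + (y) * u7 + (z - w ^ 3) * u8)) + ((x) * ((-y ^ 2 + y ^ 2 * w) * u3) + (z - w ^ 3) * ((y * w - y * w ^ 2) * u3 + (-y ^ 2 + y ^ 2 * w) * u8)) := by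
  linear_combination (exp := 1) ((2 * y - 2 * y * w) * u3) * hxy

lemma h2_0_8 (x y z w s u0 u1 u2 u3 u4 u5 u6 u7 u8 u9 : R) (hxy : x * y = z * w) (hxs : x * s = 0)
    (hws : w * s = 0) :
    (1 - w) * (y ^ 3) * u8 =
      (0) + ((-w) * ((-y ^ 2 + y ^ 2 * w) * u3) + (-y) * ((y * w - y * w ^ 2) * u3 + (-y ^ 2 + y ^ 2 * w) * u8)) := by
  linear_combination (exp := 1) 0

lemma h2_0_9 (x y z w s u0 u1 u2 u3 u4 u5 u6 u7 u8 u9 : R) (hxy : x * y = z * w) (hxs : x * s = 0)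
    (hws : w * s = 0) :
    (1 - w) * (y ^ 3) * u9 =
      ((-x + x * w) * ((y) * u2 + (z + w ^ 3) * u3) + (y * w - y * w ^ 2) * ((-s + x) * u2 + (y) * u4 + (z) * u6 + (-s + x * w ^ 2) * u8) + (-z + z * w + y * s) * ((-w) * u2 + (-x) * u3 + (y) * u7 + (z - w ^ 3) * u8) + (y ^ 2 - y ^ 2 * w) * ((-w) * u4 + (z) * u5 + (-x) * u6 + (-s - x) * u7 + (y) * u9)) + ((-x * w) * ((y - y * w) * u2 + (z - w ^ 2 - y * s + w ^ 3) * u3 + (-y ^ 2) * u6 + (y * w - y * w ^ 3) * u8) + (z) * ((x * w) * u3 + (-y ^ 2 + y ^ 2 * w) * u5 + (-y * w ^ 2) * u6 + (y - y * w ^ 2) * u7 + (z - z * w - y * s) * u8)) := by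
  linear_combination (exp := 1) ((1 - w) * u2 + (s - w * s) * u3 + (y - 2 * y * w) * u6 + (y - y * w) * u7 + (w ^ 2 - w ^ 3) * u8) * hxy + ((2 * y - y * w) * u2 + (z - z * w) * u3 + (-y ^ 2) * u7 + (y - y * w + y * w ^ 2) * u8) * hws

/-- homotopy -/
def s1_1 (x y z w s : R) (v : Fin 7 → R) : Fin 10 → R :=
  ![(z - z * w) * v 0 + (-s + x - x * w) * v 2,
    (-y + y * w) * v 0 + (-w - z + w ^ 2 + z * w) * v 2 + (-2 * s) * v 6,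
    (-x * w ^ 2 + x * w ^ 3) * v 3,
    (z - z * w) * v 3,
    (x - x * w) * v 4 + (z - z * w) * v 6,
    (y - y * w) * v 2 + (x - x * w) * v 4 + (z - z * w) * v 6,
    (-w + z + w ^ 2 - z * w) * v 4 + (s - x * w ^ 2 + x * w ^ 3) * v 5 + (-y + y * w) * v 6,
    (x * w ^ 2 - x * w ^ 3) * v 5,
    (x - x * w) * v 3 + (z - z * w) * v 5,
    (-z + z * w) * v 2]

/-- homotopy -/
def s2_1 (x y z w s : R) (u : Fin 10 → R) : Fin 4 → R :=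
  ![(z - z * w) * u 2 + (x * w ^ 2 - x * w ^ 3) * u 3,
    (z) * u 4 + (-z) * u 5 + (2 * s) * u 7 + (-y) * u 9,
    (-x + x * w) * u 2 + (z - z * w) * u 7 + (-x * w ^ 2 + x * w ^ 3) * u 8,
    (-y + y * w) * u 0 + (-z + z * w) * u 1 + (-s + x) * u 4 + (-s - x) * u 5 + (-w + z - z * w) * u 9]

lemma h1_1_0 (x y z w s v0 v1 v2 v3 v4 v5 v6 : R) (hxy : x * y = z * w) (hxs : x * s = 0)
    (hws : w * s = 0) :
    (1 - w) * (z ^ 2) * v0 =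
      (z + w ^ 2) * ((z - z * w) * v0 + (-s + x - x * w) * v2) + (x * w) * ((-y + y * w) * v0 + (-w - z + w ^ 2 + z * w) * v2 + (-2 * s) * v6) + (-s + x - x * w) * ((-z + z * w) * v2) := by
  linear_combination (exp := 1) ((w - w ^ 2) * v0) * hxy + ((2 * w) * v6) * hxs + ((w + z) * v2) * hws

lemma h1_1_1 (x y z w s v0 v1 v2 v3 v4 v5 v6 : R) (hxy : x * y = z * w) (hxs : x * s = 0)
    (hws : w * s = 0) :
    (1 - w) * (z ^ 2) * v1 =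
      (y ^ 2) * ((-y + y * w) * v0 + (-w - z + w ^ 2 + z * w) * v2 + (-2 * s) * v6) + (-s ^ 2) * ((z - z * w) * v3) + (-y * w) * ((x - x * w) * v4 + (z - z * w) * v6) + (y * w - y * w ^ 2) * ((y - y * w) * v2 + (x - x * w) * v4 + (z - z * w) * v6) + (-y * s + w ^ 3) * ((-w + z + w ^ 2 - z * w) * v4 + (s - x * w ^ 2 + x * w ^ 3) * v5 + (-y + y * w) * v6) + (-w + w ^ 3) * ((x * w ^ 2 - x * w ^ 3) * v5) + (-x) * ((x - x * w) * v3 + (z - z * w) * v5) + (1 - w) * ((y ^ 3) * v0 + (z ^ 2) * v1 + (y ^ 2 * z + y ^ 2 * w ^ 2) * v2 + (x ^ 2 + z * s ^ 2) * v3 + (y * z * s + w ^ 4) * v4 + (x * z + y * s ^ 2 + x * w ^ 3) * v5 + (y ^ 2 * s + y * w ^ 3 + y * z * w ^ 2) * v6) := by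
  linear_combination (exp := 1) ((w ^ 2 - w ^ 3) * v4 + (-w ^ 2 * s + w ^ 3 * s) * v5) * hxy + ((-y + y * w) * v4 + (-w ^ 2 + y * s - z * w ^ 2 + z * w ^ 3) * v5 + (2 * y ^ 2) * v6) * hws

lemma h1_1_2 (x y z w s v0 v1 v2 v3 v4 v5 v6 : R) (hxy : x * y = z * w) (hxs : x * s = 0)
    (hws : w * s = 0) :
    (1 - w) * (z ^ 2) * v2 =
      (-y) * ((z - z * w) * v0 + (-s + x - x * w) * v2) + (-z) * ((-y + y * w) * v0 + (-w - z + w ^ 2 + z * w) * v2 + (-2 * s) * v6) + (-s + x) * ((x - x * w) * v4 + (z - z * w) * v6) + (-s - x) * ((y - y * w) * v2 + (x - x * w) * v4 + (z - z * w) * v6) + (-w) * ((-z + z * w) * v2) := by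
  linear_combination (exp := 1) ((2 - 2 * w) * v2) * hxy + ((2 - 2 * w) * v4) * hxs + ((-y) * v2 + (-2 * z) * v6) * hws

lemma h1_1_3 (x y z w s v0 v1 v2 v3 v4 v5 v6 : R) (hxy : x * y = z * w) (hxs : x * s = 0)
    (hws : w * s = 0) :
    (1 - w) * (z ^ 2) * v3 =
      (y) * ((-x * w ^ 2 + x * w ^ 3) * v3) + (z + w ^ 3) * ((z - z * w) * v3) := by
  linear_combination (exp := 1) ((w ^ 2 - w ^ 3) * v3) * hxy

lemma h1_1_4 (x y z w s v0 v1 v2 v3 v4 v5 v6 : R) (hxy : x * y = z * w) (hxs : x * s = 0)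
    (hws : w * s = 0) :
    (1 - w) * (z ^ 2) * v4 =
      (-s + x) * ((-x * w ^ 2 + x * w ^ 3) * v3) + (y) * ((x - x * w) * v4 + (z - z * w) * v6) + (z) * ((-w + z + w ^ 2 - z * w) * v4 + (s - x * w ^ 2 + x * w ^ 3) * v5 + (-y + y * w) * v6) + (-s + x * w ^ 2) * ((x - x * w) * v3 + (z - z * w) * v5) := by
  linear_combination (exp := 1) ((-1 + w) * v4) * hxy + ((1 - w - w ^ 2 + w ^ 3) * v3) * hxs + ((-z) * v5) * hws

lemma h1_1_5 (x y z w s v0 v1 v2 v3 v4 v5 v6 : R) (hxy : x * y = z * w) (hxs : x * s = 0)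
    (hws : w * s = 0) :
    (1 - w) * (z ^ 2) * v5 =
      (-w) * ((-x * w ^ 2 + x * w ^ 3) * v3) + (-x) * ((z - z * w) * v3) + (y) * ((x * w ^ 2 - x * w ^ 3) * v5) + (z - w ^ 3) * ((x - x * w) * v3 + (z - z * w) * v5) := by
  linear_combination (exp := 1) ((-w ^ 2 + w ^ 3) * v5) * hxy

lemma h1_1_6 (x y z w s v0 v1 v2 v3 v4 v5 v6 : R) (hxy : x * y = z * w) (hxs : x * s = 0)
    (hws : w * s = 0) :
    (1 - w) * (z ^ 2) * v6 =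
      (-w) * ((x - x * w) * v4 + (z - z * w) * v6) + (z) * ((y - y * w) * v2 + (x - x * w) * v4 + (z - z * w) * v6) + (-x) * ((-w + z + w ^ 2 - z * w) * v4 + (s - x * w ^ 2 + x * w ^ 3) * v5 + (-y + y * w) * v6) + (-s - x) * ((x * w ^ 2 - x * w ^ 3) * v5) + (y) * ((-z + z * w) * v2) := by
  linear_combination (exp := 1) ((-1 + w) * v6) * hxy + ((1 + w ^ 2 - w ^ 3) * v5) * hxs

lemma h2_1_0 (x y z w s u0 u1 u2 u3 u4 u5 u6 u7 u8 u9 : R) (hxy : x * y = z * w) (hxs : x * s = 0)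
    (hws : w * s = 0) :
    (1 - w) * (z ^ 2) * u0 =
      ((z - z * w) * ((z + w ^ 2) * u0 + (x * w) * u1 + (-s + x - x * w) * u9) + (-s + x - x * w) * ((-y) * u0 + (-z) * u1 + (-s + x) * u4 + (-s - x) * u5 + (-w) * u9)) + ((s - x + x * w) * ((-y + y * w) * u0 + (-z + z * w) * u1 + (-s + x) * u4 + (-s - x) * u5 + (-w + z - z * w) * u9)) := by
  linear_combination (exp := 1) ((w - w ^ 2) * u0) * hxy + ((-y) * u0 + (-z) * u1) * hws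

lemma h2_1_1 (x y z w s u0 u1 u2 u3 u4 u5 u6 u7 u8 u9 : R) (hxy : x * y = z * w) (hxs : x * s = 0)
    (hws : w * s = 0) :
    (1 - w) * (z ^ 2) * u1 =
      ((-y + y * w) * ((z + w ^ 2) * u0 + (x * w) * u1 + (-s + x - x * w) * u9) + (-w - z + w ^ 2 + z * w) * ((-y) * u0 + (-z) * u1 + (-s + x) * u4 + (-s - x) * u5 + (-w) * u9) + (-2 * s) * ((-w) * u4 + (z) * u5 + (-x) * u6 + (-s - x) * u7 + (y) * u9)) + ((-s + x - x * w) * ((z) * u4 + (-z) * u5 + (2 * s) * u7 + (-y) * u9) + (w - w ^ 2) * ((-y + y * w) * u0 + (-z + z * w) * u1 + (-s + x) * u4 + (-s - x) * u5 + (-w + z - z * w) * u9)) := by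
  linear_combination (exp := 1) ((w - w ^ 2) * u1 + (2 - 3 * w + w ^ 2) * u9) * hxy + ((-2) * u6 + (-4 + 2 * w) * u7) * hxs + ((-2 + z) * u4 + (z) * u5 + (y) * u9) * hws

lemma h2_1_2 (x y z w s u0 u1 u2 u3 u4 u5 u6 u7 u8 u9 : R) (hxy : x * y = z * w) (hxs : x * s = 0)
    (hws : w * s = 0) :
    (1 - w) * (z ^ 2) * u2 =
      ((-x * w ^ 2 + x * w ^ 3) * ((y) * u2 + (z + w ^ 3) * u3)) + ((z + w ^ 3) * ((z - z * w) * u2 + (x * w ^ 2 - x * w ^ 3) * u3)) := by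
  linear_combination (exp := 1) ((w ^ 2 - w ^ 3) * u2) * hxy

lemma h2_1_3 (x y z w s u0 u1 u2 u3 u4 u5 u6 u7 u8 u9 : R) (hxy : x * y = z * w) (hxs : x * s = 0)
    (hws : w * s = 0) :
    (1 - w) * (z ^ 2) * u3 =
      ((z - z * w) * ((y) * u2 + (z + w ^ 3) * u3)) + ((-y) * ((z - z * w) * u2 + (x * w ^ 2 - x * w ^ 3) * u3)) := by
  linear_combination (exp := 1) ((w ^ 2 - w ^ 3) * u3) * hxy

lemma h2_1_4 (x y z w s u0 u1 u2 u3 u4 u5 u6 u7 u8 u9 : R) (hxy : x * y = z * w) (hxs : x * s = 0)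
    (hws : w * s = 0) :
    (1 - w) * (z ^ 2) * u4 =
      ((x - x * w) * ((-s + x) * u2 + (y) * u4 + (z) * u6 + (-s + x * w ^ 2) * u8) + (z - z * w) * ((-w) * u4 + (z) * u5 + (-x) * u6 + (-s - x) * u7 + (y) * u9)) + ((z - z * w) * ((z) * u4 + (-z) * u5 + (2 * s) * u7 + (-y) * u9) + (-s + x) * ((-x + x * w) * u2 + (z - z * w) * u7 + (-x * w ^ 2 + x * w ^ 3) * u8)) := by
  linear_combination (exp := 1) ((-1 + w) * u4) * hxy + ((1 - w - w ^ 2 + w ^ 3) * u8) * hxs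

lemma h2_1_5 (x y z w s u0 u1 u2 u3 u4 u5 u6 u7 u8 u9 : R) (hxy : x * y = z * w) (hxs : x * s = 0)
    (hws : w * s = 0) :
    (1 - w) * (z ^ 2) * u5 =
      ((y - y * w) * ((-y) * u0 + (-z) * u1 + (-s + x) * u4 + (-s - x) * u5 + (-w) * u9) + (x - x * w) * ((-s + x) * u2 + (y) * u4 + (z) * u6 + (-s + x * w ^ 2) * u8) + (z - z * w) * ((-w) * u4 + (z) * u5 + (-x) * u6 + (-s - x) * u7 + (y) * u9)) + ((w ^ 2) * ((z) * u4 + (-z) * u5 + (2 * s) * u7 + (-y) * u9) + (s + x) * ((-x + x * w) * u2 + (z - z * w) * u7 + (-x * w ^ 2 + x * w ^ 3) * u8) + (-y) * ((-y + y * w) * u0 + (-z + z * w) * u1 + (-s + x) * u4 + (-s - x) * u5 + (-w + z - z * w) * u9)) := by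
  linear_combination (exp := 1) ((-1 + 2 * w) * u4 + (-w) * u5) * hxy + ((2 - 2 * w) * u2 + (1 - w + w ^ 2 - w ^ 3) * u8) * hxs + ((-y) * u4 + (-y) * u5 + (-2 * w) * u7) * hws

lemma h2_1_6 (x y z w s u0 u1 u2 u3 u4 u5 u6 u7 u8 u9 : R) (hxy : x * y = z * w) (hxs : x * s = 0)
    (hws : w * s = 0) :
    (1 - w) * (z ^ 2) * u6 =
      ((-w + z + w ^ 2 - z * w) * ((-s + x) * u2 + (y) * u4 + (z) * u6 + (-s + x * w ^ 2) * u8) + (s - x * w ^ 2 + x * w ^ 3) * ((-w) * u2 + (-x) * u3 + (y) * u7 + (z - w ^ 3) * u8) + (-y + y * w) * ((-w) * u4 + (z) * u5 + (-x) * u6 + (-s - x) * u7 + (y) * u9)) + ((s - x) * ((z - z * w) * u2 + (x * w ^ 2 - x * w ^ 3) * u3) + (-y + y * w) * ((z) * u4 + (-z) * u5 + (2 * s) * u7 + (-y) * u9) + (-w + w ^ 3) * ((-x + x * w) * u2 + (z - z * w) * u7 + (-x * w ^ 2 + x * w ^ 3) * u8)) := by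
  linear_combination (exp := 1) ((-1 + w) * u6 + (-1 + w + w ^ 2 - w ^ 3) * u7) * hxy + ((1 - w ^ 2 + w ^ 3) * u3) * hxs + ((w) * u2 + (-y) * u7 + (-1 + w - z + w ^ 2) * u8) * hws

lemma h2_1_7 (x y z w s u0 u1 u2 u3 u4 u5 u6 u7 u8 u9 : R) (hxy : x * y = z * w) (hxs : x * s = 0)
    (hws : w * s = 0) :
    (1 - w) * (z ^ 2) * u7 =
      ((x * w ^ 2 - x * w ^ 3) * ((-w) * u2 + (-x) * u3 + (y) * u7 + (z - w ^ 3) * u8)) + ((x) * ((z - z * w) * u2 + (x * w ^ 2 - x * w ^ 3) * u3) + (z - w ^ 3) * ((-x + x * w) * u2 + (z - z * w) * u7 + (-x * w ^ 2 + x * w ^ 3) * u8)) := by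
  linear_combination (exp := 1) ((-w ^ 2 + w ^ 3) * u7) * hxy

lemma h2_1_8 (x y z w s u0 u1 u2 u3 u4 u5 u6 u7 u8 u9 : R) (hxy : x * y = z * w) (hxs : x * s = 0)
    (hws : w * s = 0) :
    (1 - w) * (z ^ 2) * u8 =
      ((x - x * w) * ((y) * u2 + (z + w ^ 3) * u3) + (z - z * w) * ((-w) * u2 + (-x) * u3 + (y) * u7 + (z - w ^ 3) * u8)) + ((-w) * ((z - z * w) * u2 + (x * w ^ 2 - x * w ^ 3) * u3) + (-y) * ((-x + x * w) * u2 + (z - z * w) * u7 + (-x * w ^ 2 + x * w ^ 3) * u8)) := by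
  linear_combination (exp := 1) ((-2 + 2 * w) * u2 + (-w ^ 2 + w ^ 3) * u8) * hxy

lemma h2_1_9 (x y z w s u0 u1 u2 u3 u4 u5 u6 u7 u8 u9 : R) (hxy : x * y = z * w) (hxs : x * s = 0)
    (hws : w * s = 0) :
    (1 - w) * (z ^ 2) * u9 =
      ((-z + z * w) * ((-y) * u0 + (-z) * u1 + (-s + x) * u4 + (-s - x) * u5 + (-w) * u9)) + ((-x * w) * ((z) * u4 + (-z) * u5 + (2 * s) * u7 + (-y) * u9) + (z) * ((-y + y * w) * u0 + (-z + z * w) * u1 + (-s + x) * u4 + (-s - x) * u5 + (-w + z - z * w) * u9)) := by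
  linear_combination (exp := 1) ((-w) * u9) * hxy + ((2 * w) * u7) * hxs + ((z) * u4 + (z) * u5) * hws

/-- homotopy -/
def s1_2 (x y z w s : R) (v : Fin 7 → R) : Fin 10 → R :=
  ![(y ^ 2 - y ^ 2 * w) * v 0 + (s - x + x * w) * v 1 + (-s + x - 2 * x * w + 2 * x * w ^ 2 - x * w ^ 3) * v 4 + (-z * w + y * s + 2 * z * w ^ 2 - z * w ^ 3) * v 6,
    (w + z - w ^ 2 - z * w) * v 1 + (-w + w ^ 2 - z * w + 2 * y * s + z * w ^ 2) * v 4 + (s) * v 5,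
    (y * z + y * w ^ 2 - y * z * w - y * w ^ 3) * v 3,
    0,
    (-s + z * s) * v 3 + (-y * z + y * w ^ 2 + y * z * w - y * w ^ 3) * v 4 + (-z + 2 * z * w - z * w ^ 2) * v 5,
    (-y + y * w) * v 1 + (s + x - x * w) * v 3 + (y - y * w ^ 2) * v 4 + (z * w + y * s + w ^ 3 - z * w ^ 2 - w ^ 4) * v 5,
    (-z * w + z * w ^ 2) * v 3 + (2 * y ^ 2 - 2 * y ^ 2 * w) * v 4 + (y - 2 * y * w + y * w ^ 2) * v 5,
    (z - z * w ^ 2) * v 3 + (y * z + y * w ^ 2 - y * z * w - y * w ^ 3) * v 5,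
    (-y + y * w) * v 3,
    (z - z * w) * v 1 + (-z + z * w + w ^ 3 - w ^ 4) * v 4 + (y * z + y * w ^ 2 - y * z * w - y * w ^ 3) * v 6]

/-- homotopy -/
def s2_2 (x y z w s : R) (u : Fin 10 → R) : Fin 4 → R :=
  ![(-y * z - y * w ^ 2 + y * z * w + y * w ^ 3) * u 3,
    (w ^ 2 + z * w - 2 * y * s - w ^ 3) * u 2 + (-z * s) * u 3 + (2 * y ^ 2) * u 4 + (y * z - y * w ^ 2) * u 6 + (y - y * w) * u 7 + (z - 2 * y * s + w ^ 4 + z * w ^ 3 - w ^ 5) * u 8,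
    (-y + y * w) * u 2 + (-z + 2 * z * w - z * w ^ 2) * u 3 + (-y * z - y * w ^ 2 + y * z * w + y * w ^ 3) * u 8,
    (-y ^ 2 + y ^ 2 * w) * u 1 + (-s + x - x * w + x * w ^ 2) * u 2 + (s ^ 2) * u 3 + (y + y * w) * u 4 + (-y * w - y * z + y * w ^ 2 + y * z * w) * u 5 + (z + y * s - w ^ 3) * u 6 + (w + z * w + y * s - w ^ 3 - z * w ^ 2) * u 7 + (-s + x + x * w ^ 2 - x * w ^ 3 + x * w ^ 4) * u 8]

lemma h1_2_0 (x y z w s v0 v1 v2 v3 v4 v5 v6 : R) (hxy : x * y = z * w) (hxs : x * s = 0)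
    (hws : w * s = 0) :
    (1 - w) * (y ^ 2 * z + y ^ 2 * w ^ 2) * v0 =
      (z + w ^ 2) * ((y ^ 2 - y ^ 2 * w) * v0 + (s - x + x * w) * v1 + (-s + x - 2 * x * w + 2 * x * w ^ 2 - x * w ^ 3) * v4 + (-z * w + y * s + 2 * z * w ^ 2 - z * w ^ 3) * v6) + (x * w) * ((w + z - w ^ 2 - z * w) * v1 + (-w + w ^ 2 - z * w + 2 * y * s + z * w ^ 2) * v4 + (s) * v5) + (-s + x - x * w) * ((z - z * w) * v1 + (-z + z * w + w ^ 3 - w ^ 4) * v4 + (y * z + y * w ^ 2 - y * z * w - y * w ^ 3) * v6) := by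
  linear_combination (exp := 1) ((-2 * w * s) * v4 + (-z - w ^ 2 + 2 * z * w + 2 * w ^ 3 - z * w ^ 2 - w ^ 4) * v6) * hxy + ((-w) * v5) * hxs + ((-w - z) * v1 + (w + z + w ^ 2 - 2 * z * w - w ^ 3) * v4 + (-y * z - y * w ^ 2) * v6) * hws

lemma h1_2_1 (x y z w s v0 v1 v2 v3 v4 v5 v6 : R) (hxy : x * y = z * w) (hxs : x * s = 0)
    (hws : w * s = 0) :
    (1 - w) * (y ^ 2 * z + y ^ 2 * w ^ 2) * v1 =
      (y ^ 2) * ((w + z - w ^ 2 - z * w) * v1 + (-w + w ^ 2 - z * w + 2 * y * s + z * w ^ 2) * v4 + (s) * v5) + (-s ^ 2) * (0) + (-y * w) * ((-s + z * s) * v3 + (-y * z + y * w ^ 2 + y * z * w - y * w ^ 3) * v4 + (-z + 2 * z * w - z * w ^ 2) * v5) + (y * w - y * w ^ 2) * ((-y + y * w) * v1 + (s + x - x * w) * v3 + (y - y * w ^ 2) * v4 + (z * w + y * s + w ^ 3 - z * w ^ 2 - w ^ 4) * v5) + (-y * s + w ^ 3) * ((-z * w + z * w ^ 2) * v3 + (2 * y ^ 2 - 2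 * y ^ 2 * w) * v4 + (y - 2 * y * w + y * w ^ 2) * v5) + (-w + w ^ 3) * ((z - z * w ^ 2) * v3 + (y * z + y * w ^ 2 - y * z * w - y * w ^ 3) * v5) + (-x) * ((-y + y * w) * v3) := by
  linear_combination (exp := 1) ((-1 + 2 * w ^ 2 - w ^ 3) * v3) * hxy + ((-2 * y + y * w + y * z * w) * v3 + (-2 * y ^ 3) * v4 + (-3 * y ^ 2 + 2 * y ^ 2 * w) * v5) * hws

lemma h1_2_2 (x y z w s v0 v1 v2 v3 v4 v5 v6 : R) (hxy : x * y = z * w) (hxs : x * s = 0)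
    (hws : w * s = 0) :
    (1 - w) * (y ^ 2 * z + y ^ 2 * w ^ 2) * v2 =
      (-y) * ((y ^ 2 - y ^ 2 * w) * v0 + (s - x + x * w) * v1 + (-s + x - 2 * x * w + 2 * x * w ^ 2 - x * w ^ 3) * v4 + (-z * w + y * s + 2 * z * w ^ 2 - z * w ^ 3) * v6) + (-z) * ((w + z - w ^ 2 - z * w) * v1 + (-w + w ^ 2 - z * w + 2 * y * s + z * w ^ 2) * v4 + (s) * v5) + (-s + x) * ((-s + z * s) * v3 + (-y * z + y * w ^ 2 + y * z * w - y * w ^ 3) * v4 + (-z + 2 * z * w - z * w ^ 2) * v5) + (-s - x) * ((-y + y * w) * v1 + (s + x - x * w) * v3 + (y - y * w ^ 2) * v4 + (z * w + y * s + w ^ 3 - z * w ^ 2 - w ^ 4) * v5) + (-w) * ((z - z * w) * v1 + (-z + z * w + w ^ 3 - w ^ 4) * v4 + (y * z + y * w ^ 2 - y * z * w - y * w ^ 3) * v6) + (1 - w) * ((y ^ 3) * v0 + (z ^ 2) * v1 + (y ^ 2 * z + y ^ 2 * w ^ 2) * v2 + (x ^ 2 + z * s ^ 2) * v3 + (y * z * s + w ^ 4) * v4 + (x * z + y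 * s ^ 2 + x * w ^ 3) * v5 + (y ^ 2 * s + y * w ^ 3 + y * z * w ^ 2) * v6) := by
  linear_combination (exp := 1) ((-2 + 2 * w) * v1 + (2 - 2 * w + z - z * w) * v4 + (s) * v5) * hxy + ((3 - w - z) * v3) * hxs + ((y) * v1 + (z * s) * v3 + (2 * y * z - y * w ^ 2) * v4 + (4 * z + w ^ 2 - 2 * z * w + y * s - w ^ 3) * v5 + (y ^ 2) * v6) * hws

lemma h1_2_3 (x y z w s v0 v1 v2 v3 v4 v5 v6 : R) (hxy : x * y = z * w) (hxs : x * s = 0)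
    (hws : w * s = 0) :
    (1 - w) * (y ^ 2 * z + y ^ 2 * w ^ 2) * v3 =
      (y) * ((y * z + y * w ^ 2 - y * z * w - y * w ^ 3) * v3) + (z + w ^ 3) * (0) := by
  linear_combination (exp := 1) 0

lemma h1_2_4 (x y z w s v0 v1 v2 v3 v4 v5 v6 : R) (hxy : x * y = z * w) (hxs : x * s = 0)
    (hws : w * s = 0) :
    (1 - w) * (y ^ 2 * z + y ^ 2 * w ^ 2) * v4 =
      (-s + x) * ((y * z + y * w ^ 2 - y * z * w - y * w ^ 3) * v3) + (y) * ((-s + z * s) * v3 + (-y * z + y * w ^ 2 + y * z * w - y * w ^ 3) * v4 + (-z + 2 * z * w - z * w ^ 2) * v5) + (z) * ((-z * w + z * w ^ 2) * v3 + (2 * y ^ 2 - 2 * y ^ 2 * w) * v4 + (y - 2 * y * w + y * w ^ 2) * v5) + (-s + x * w ^ 2) * ((-y + y * w) * v3) := by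
  linear_combination (exp := 1) ((-z + z * w) * v3) * hxy + ((y + y * w - y * z - y * w ^ 2) * v3) * hws

lemma h1_2_5 (x y z w s v0 v1 v2 v3 v4 v5 v6 : R) (hxy : x * y = z * w) (hxs : x * s = 0)
    (hws : w * s = 0) :
    (1 - w) * (y ^ 2 * z + y ^ 2 * w ^ 2) * v5 =
      (-w) * ((y * z + y * w ^ 2 - y * z * w - y * w ^ 3) * v3) + (-x) * (0) + (y) * ((z - z * w ^ 2) * v3 + (y * z + y * w ^ 2 - y * z * w - y * w ^ 3) * v5) + (z - w ^ 3) * ((-y + y * w) * v3) := by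
  linear_combination (exp := 1) 0

lemma h1_2_6 (x y z w s v0 v1 v2 v3 v4 v5 v6 : R) (hxy : x * y = z * w) (hxs : x * s = 0)
    (hws : w * s = 0) :
    (1 - w) * (y ^ 2 * z + y ^ 2 * w ^ 2) * v6 =
      (-w) * ((-s + z * s) * v3 + (-y * z + y * w ^ 2 + y * z * w - y * w ^ 3) * v4 + (-z + 2 * z * w - z * w ^ 2) * v5) + (z) * ((-y + y * w) * v1 + (s + x - x * w) * v3 + (y - y * w ^ 2) * v4 + (z * w + y * s + w ^ 3 - z * w ^ 2 - w ^ 4) * v5) + (-x) * ((-z * w + z * w ^ 2) * v3 + (2 * y ^ 2 - 2 * y ^ 2 * w) * v4 + (y - 2 * y * w + y * w ^ 2) * v5) + (-s - x) * ((z - z * w ^ 2) * v3 + (y * z + y * w ^ 2 - y * z * w - y * w ^ 3) * v5) + (y) * ((z - z * w) * v1 + (-z + z * w + w ^ 3 - w ^ 4) * v4 + (y * z + y * w ^ 2 - y * z * w - y * w ^ 3) * v6) := by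
  linear_combination (exp := 1) ((2 * y - 2 * y * w) * v4 + (1 - 2 * w + z + 2 * w ^ 2 - z * w - w ^ 3) * v5) * hxy + ((-1 + z - z * w) * v3 + (y * w - y * z - y * w ^ 2) * v5) * hws

lemma h2_2_0 (x y z w s u0 u1 u2 u3 u4 u5 u6 u7 u8 u9 : R) (hxy : x * y = z * w) (hxs : x * s = 0)
    (hws : w * s = 0) :
    (1 - w) * (y ^ 2 * z + y ^ 2 * w ^ 2) * u0 =
      ((y ^ 2 - y ^ 2 * w) * ((z + w ^ 2) * u0 + (x * w) * u1 + (-s + x - x * w) * u9) + (s - x + x * w) * ((y ^ 2) * u1 + (-s ^ 2) * u3 + (-y * w) * u4 + (y * w - y * w ^ 2) * u5 + (-y * s + w ^ 3) * u6 + (-w + w ^ 3) * u7 + (-x) * u8) + (-s + x - 2 * x * w + 2 * x * w ^ 2 - x * w ^ 3) * ((-s + x) * u2 + (y) * u4 + (z) * u6 + (-s + x * w ^ 2) * u8) + (-z * w + y * s + 2 * z * w ^ 2 - z * w ^ 3) * ((-w) * u4 + (z) * u5 + (-x) * u6 + (-s - x) * u7 + (y) * u9)) + ((s - x + x * w) * ((-y ^ 2 + y ^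 2 * w) * u1 + (-s + x - x * w + x * w ^ 2) * u2 + (s ^ 2) * u3 + (y + y * w) * u4 + (-y * w - y * z + y * w ^ 2 + y * z * w) * u5 + (z + y * s - w ^ 3) * u6 + (w + z * w + y * s - w ^ 3 - z * w ^ 2) * u7 + (-s + x + x * w ^ 2 - x * w ^ 3 + x * w ^ 4) * u8)) := by
  linear_combination (exp := 1) ((w - 2 * w ^ 2 + w ^ 3) * u4 + (-z + 2 * z * w - z * w ^ 2) * u5 + (s) * u6 + (2 * s - w * s) * u7 + (-y + 2 * y * w - y * w ^ 2) * u9) * hxy + ((w ^ 2 - w ^ 3) * u2 + (-w + 2 * w ^ 2 - w ^ 4) * u8) * hxs + ((-y ^ 2) * u1 + (y) * u4 + (-y * z) * u5 + (z) * u6 + (2 * z * w - z * w ^ 2) * u7 + (-y ^ 2) * u9) * hws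

lemma h2_2_1 (x y z w s u0 u1 u2 u3 u4 u5 u6 u7 u8 u9 : R) (hxy : x * y = z * w) (hxs : x * s = 0)
    (hws : w * s = 0) :
    (1 - w) * (y ^ 2 * z + y ^ 2 * w ^ 2) * u1 =
      ((w + z - w ^ 2 - z * w) * ((y ^ 2) * u1 + (-s ^ 2) * u3 + (-y * w) * u4 + (y * w - y * w ^ 2) * u5 + (-y * s + w ^ 3) * u6 + (-w + w ^ 3) * u7 + (-x) * u8) + (-w + w ^ 2 - z * w + 2 * y * s + z * w ^ 2) * ((-s + x) * u2 + (y) * u4 + (z) * u6 + (-s + x * w ^ 2) * u8) + (s) * ((-w) * u2 + (-x) * u3 + (y) * u7 + (z - w ^ 3) * u8)) + ((-s + x - x * w) * ((w ^ 2 + z * w - 2 * y * s - w ^ 3) * u2 + (-z * s) * u3 + (2 * y ^ 2) * u4 + (y * z - y * w ^ 2) * u6 + (y - y * w) * u7 + (z - 2 * y * s + w ^ 4 + z * w ^ 3 - w ^ 5) * u8) + (w - w ^ 2) * ((-y ^ 2 + y ^ 2 * w) * u1 + (-s + x - x * w + x * w ^ 2) * u2 + (s ^ 2) * u3 + (y + y * w) * u4 + (-y * w - y * z + y * w ^ 2 + y *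 z * w) * u5 + (z + y * s - w ^ 3) * u6 + (w + z * w + y * s - w ^ 3 - z * w ^ 2) * u7 + (-s + x + x * w ^ 2 - x * w ^ 3 + x * w ^ 4) * u8)) := by
  linear_combination (exp := 1) ((-2 * w * s) * u2 + (-2 * y + 2 * y * w) * u4 + (-z + w ^ 2 + z * w - w ^ 3) * u6 + (-1 + 2 * w - w ^ 2) * u7 + (2 * s - 2 * w * s - 2 * w ^ 2 * s) * u8) * hxy + ((1 + z - z * w) * u3) * hxs + ((1 + w - w ^ 2 - z * w) * u2 + (-z * s) * u3 + (-y * w - y * z) * u6 + (-2 * y + y * w) * u7 + (z + w ^ 2 - z * w + w ^ 3 - z * w ^ 2 - w ^ 4) * u8) * hws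

lemma h2_2_2 (x y z w s u0 u1 u2 u3 u4 u5 u6 u7 u8 u9 : R) (hxy : x * y = z * w) (hxs : x * s = 0)
    (hws : w * s = 0) :
    (1 - w) * (y ^ 2 * z + y ^ 2 * w ^ 2) * u2 =
      ((y * z + y * w ^ 2 - y * z * w - y * w ^ 3) * ((y) * u2 + (z + w ^ 3) * u3)) + ((z + w ^ 3) * ((-y * z - y * w ^ 2 + y * z * w + y * w ^ 3) * u3)) := by
  linear_combination (exp := 1) 0

lemma h2_2_3 (x y z w s u0 u1 u2 u3 u4 u5 u6 u7 u8 u9 : R) (hxy : x * y = z * w) (hxs : x * s = 0)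
    (hws : w * s = 0) :
    (1 - w) * (y ^ 2 * z + y ^ 2 * w ^ 2) * u3 =
      (0) + ((-y) * ((-y * z - y * w ^ 2 + y * z * w + y * w ^ 3) * u3)) := by
  linear_combination (exp := 1) 0

lemma h2_2_4 (x y z w s u0 u1 u2 u3 u4 u5 u6 u7 u8 u9 : R) (hxy : x * y = z * w) (hxs : x * s = 0)
    (hws : w * s = 0) :
    (1 - w) * (y ^ 2 * z + y ^ 2 * w ^ 2) * u4 =
      ((-s + z * s) * ((y) * u2 + (z + w ^ 3) * u3) + (-y * z + y * w ^ 2 + y * z * w - y * w ^ 3) * ((-s + x) * u2 + (y) * u4 + (z) * u6 + (-s + x * w ^ 2) * u8) + (-z + 2 * z * w - z * w ^ 2) * ((-w) * u2 + (-x) * u3 + (y) * u7 + (z - w ^ 3) * u8)) + ((z - z * w) * ((w ^ 2 + z * w - 2 * y * s - w ^ 3) * u2 + (-z * s) * u3 + (2 * y ^ 2) * u4 + (y * z - y * w ^ 2) * u6 + (y - y * w) * u7 + (z - 2 * y * s + w ^ 4 + z * w ^ 3 - w ^ 5) * u8) + (-s + x) * ((-y + y * w) * u2 + (-z + 2 * z * w - z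 * w ^ 2) * u3 + (-y * z - y * w ^ 2 + y * z * w + y * w ^ 3) * u8)) := by
  linear_combination (exp := 1) ((1 - w + z - w ^ 2 - z * w + w ^ 3) * u2 + (z + w ^ 2 - z * w - w ^ 3 + z * w ^ 2 - w ^ 4 - z * w ^ 3 + w ^ 5) * u8) * hxy + ((y + y * w - y * z - y * w ^ 2) * u2 + (2 * z + w ^ 2 - z * w - z ^ 2 - z * w ^ 2) * u3) * hws

lemma h2_2_5 (x y z w s u0 u1 u2 u3 u4 u5 u6 u7 u8 u9 : R) (hxy : x * y = z * w) (hxs : x * s = 0)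
    (hws : w * s = 0) :
    (1 - w) * (y ^ 2 * z + y ^ 2 * w ^ 2) * u5 =
      ((-y + y * w) * ((y ^ 2) * u1 + (-s ^ 2) * u3 + (-y * w) * u4 + (y * w - y * w ^ 2) * u5 + (-y * s + w ^ 3) * u6 + (-w + w ^ 3) * u7 + (-x) * u8) + (s + x - x * w) * ((y) * u2 + (z + w ^ 3) * u3) + (y - y * w ^ 2) * ((-s + x) * u2 + (y) * u4 + (z) * u6 + (-s + x * w ^ 2) * u8) + (z * w + y * s + w ^ 3 - z * w ^ 2 - w ^ 4) * ((-w) * u2 + (-x) * u3 + (y) * u7 + (z - w ^ 3) * u8)) + ((w ^ 2) * ((w ^ 2 + z * w - 2 * y * s - w ^ 3) * u2 + (-z * s) * u3 + (2 * y ^ 2) * u4 + (y * z - y * w ^ 2) * u6 + (y - y * w) * u7 + (z - 2 * y * s + w ^ 4 + z * w ^ 3 - w ^ 5) * u8) + (s + x) * ((-y + y * w) * u2 + (-z + 2 * z * w - z * w ^ 2) * u3 + (-y * z - y * w ^ 2 + y * z * w + y * w ^ 3) * u8) + (-y) * ((-y ^ 2 + y ^ 2 * w) * u1 + (-s + x - x * w + x * w ^ 2) * u2 + (s ^ 2) * u3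 + (y + y * w) * u4 + (-y * w - y * z + y * w ^ 2 + y * z * w) * u5 + (z + y * s - w ^ 3) * u6 + (w + z * w + y * s - w ^ 3 - z * w ^ 2) * u7 + (-s + x + x * w ^ 2 - x * w ^ 3 + x * w ^ 4) * u8)) := by
  linear_combination (exp := 1) ((-w + 2 * w ^ 2) * u2 + (s) * u3 + (w + z + w ^ 2 - z * w - 2 * w ^ 3 + 2 * w ^ 4) * u8) * hxy + ((y * w) * u2 + (-z - w ^ 2 + 2 * z * w + y * s) * u3 + (y ^ 2) * u6 + (2 * y * w - y * z) * u8) * hws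

lemma h2_2_6 (x y z w s u0 u1 u2 u3 u4 u5 u6 u7 u8 u9 : R) (hxy : x * y = z * w) (hxs : x * s = 0)
    (hws : w * s = 0) :
    (1 - w) * (y ^ 2 * z + y ^ 2 * w ^ 2) * u6 =
      ((-z * w + z * w ^ 2) * ((y) * u2 + (z + w ^ 3) * u3) + (2 * y ^ 2 - 2 * y ^ 2 * w) * ((-s + x) * u2 + (y) * u4 + (z) * u6 + (-s + x * w ^ 2) * u8) + (y - 2 * y * w + y * w ^ 2) * ((-w) * u2 + (-x) * u3 + (y) * u7 + (z - w ^ 3) * u8)) + ((s - x) * ((-y * z - y * w ^ 2 + y * z * w + y * w ^ 3) * u3) + (-y + y * w) * ((w ^ 2 + z * w - 2 * y * s - w ^ 3) * u2 + (-z * s) * u3 + (2 * y ^ 2) * u4 + (y * z - y * w ^ 2) * u6 + (y - y * w) * u7 + (z - 2 * y * s + w ^ 4 + z * w ^ 3 - w ^ 5) * u8) + (-w + w ^ 3) * ((-y + y * w) * u2 + (-z + 2 * z * w - z * w ^ 2) * u3 + (-y * z - y * w ^ 2 + y * z * w + y * w ^ 3) * u8)) := by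
  linear_combination (exp := 1) ((-2 * y + 2 * y * w) * u2 + (1 - 2 * w - z + z * w + w ^ 3) * u3 + (-2 * y * w ^ 2 + 2 * y * w ^ 3) * u8) * hxy + ((y * w - y * w ^ 2) * u3) * hws

lemma h2_2_7 (x y z w s u0 u1 u2 u3 u4 u5 u6 u7 u8 u9 : R) (hxy : x * y = z * w) (hxs : x * s = 0)
    (hws : w * s = 0) :
    (1 - w) * (y ^ 2 * z + y ^ 2 * w ^ 2) * u7 =
      ((z - z * w ^ 2) * ((y) * u2 + (z + w ^ 3) * u3) + (y * z + y * w ^ 2 - y * z * w - y * w ^ 3) * ((-w) * u2 + (-x) * u3 + (y) * u7 + (z - w ^ 3) * u8)) + ((x) * ((-y * z - y * w ^ 2 + y * z * w + y * w ^ 3) * u3) + (z - w ^ 3) * ((-y + y * w) * u2 + (-z + 2 * z * w - z * w ^ 2) * u3 + (-y * z - y * w ^ 2 + y * z * w + y * w ^ 3) * u8)) := by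
  linear_combination (exp := 1) ((2 * z + 2 * w ^ 2 - 2 * z * w - 2 * w ^ 3) * u3) * hxy

lemma h2_2_8 (x y z w s u0 u1 u2 u3 u4 u5 u6 u7 u8 u9 : R) (hxy : x * y = z * w) (hxs : x * s = 0)
    (hws : w * s = 0) :
    (1 - w) * (y ^ 2 * z + y ^ 2 * w ^ 2) * u8 =
      ((-y + y * w) * ((y) * u2 + (z + w ^ 3) * u3)) + ((-w) * ((-y * z - y * w ^ 2 + y * z * w + y * w ^ 3) * u3) + (-y) * ((-y + y * w) * u2 + (-z + 2 * z * w - z * w ^ 2) * u3 + (-y * z - y * w ^ 2 + y * z * w + y * w ^ 3) * u8)) := by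
  linear_combination (exp := 1) 0

lemma h2_2_9 (x y z w s u0 u1 u2 u3 u4 u5 u6 u7 u8 u9 : R) (hxy : x * y = z * w) (hxs : x * s = 0)
    (hws : w * s = 0) :
    (1 - w) * (y ^ 2 * z + y ^ 2 * w ^ 2) * u9 =
      ((z - z * w) * ((y ^ 2) * u1 + (-s ^ 2) * u3 + (-y * w) * u4 + (y * w - y * w ^ 2) * u5 + (-y * s + w ^ 3) * u6 + (-w + w ^ 3) * u7 + (-x) * u8) + (-z + z * w + w ^ 3 - w ^ 4) * ((-s + x) * u2 + (y) * u4 + (z) * u6 + (-s + x * w ^ 2) * u8) + (y * z + y * w ^ 2 - y * z * w - y * w ^ 3) * ((-w) * u4 + (z) * u5 + (-x) * u6 + (-s - x) * u7 + (y) * u9)) + ((-x * w) * ((w ^ 2 + z * w - 2 * y * s - w ^ 3) * u2 + (-z * s) * u3 + (2 * y ^ 2) * u4 + (y * z - y * w ^ 2) * u6 + (y - y * w) * u7 + (z - 2 * y * s + w ^ 4 + z * w ^ 3 - w ^ 5) * u8) + (z) * ((-y ^ 2 + y ^ 2 * w) * u1 + (-s + x - x * w + x * w ^ 2) * u2 + (s ^ 2) * u3 + (y + y * w) *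 u4 + (-y * w - y * z + y * w ^ 2 + y * z * w) * u5 + (z + y * s - w ^ 3) * u6 + (w + z * w + y * s - w ^ 3 - z * w ^ 2) * u7 + (-s + x + x * w ^ 2 - x * w ^ 3 + x * w ^ 4) * u8)) := by
  linear_combination (exp := 1) ((-2 * w * s) * u2 + (2 * y * w) * u4 + (z + w ^ 2 - 2 * w ^ 3) * u6 + (w + z - z * w - w ^ 3) * u7 + (-2 * w * s) * u8) * hxy + ((-z * w) * u3) * hxs + ((z + w ^ 2 - 2 * z * w - w ^ 3) * u2 + (-z * s) * u3 + (-y * z) * u6 + (y * w - y * z - y * w ^ 2) * u7 + (z + w ^ 2 - 2 * z * w - w ^ 3) * u8) * hws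

/-- homotopy -/
def s1_3 (x y z w s : R) (v : Fin 7 → R) : Fin 10 → R :=
  ![(s ^ 2) * v 0,
    (-s + x - x * w) * v 0,
    (-y ^ 2 + y ^ 2 * w) * v 0 + (x * w ^ 2 - x * w ^ 3) * v 1 + (-y * z - y * w ^ 2 + y * z * w + y * w ^ 3) * v 2 + (x - z * s - x * w) * v 4 + (-s ^ 2) * v 5 + (z - z * w - y * s - z * w ^ 2 + z * w ^ 3) * v 6,
    (-z + z * w) * v 1 + (-w + w ^ 2) * v 4 + (-x + x * w) * v 5 + (-y + y * w) * v 6,
    (z - z * w - y * s) * v 0 + (s - z * s) * v 2 + (-s ^ 2) * v 6,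
    (-w + w ^ 2) * v 0 + (-s - x + x * w) * v 2 + (s ^ 2) * v 6,
    (-y + 2 * y * w - y * w ^ 2) * v 0 + (z * w - z * w ^ 2) * v 2 + (s - x + x * w + x * w ^ 2 - x * w ^ 3) * v 6,
    (-y * w + y * w ^ 2) * v 0 + (-z + z * w ^ 2) * v 2 + (-x * w ^ 2 + x * w ^ 3) * v 6,
    (-x + x * w) * v 1 + (y - y * w) * v 2 + (s ^ 2) * v 5,
    (x - x * w) * v 0]

/-- homotopy -/
def s2_3 (x y z w s : R) (u : Fin 10 → R) : Fin 4 → R :=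
  ![(-y * z + y * z * w) * u 1 + (z * w - z * w ^ 2) * u 4 + (-z + 2 * z * w ^ 2 - z * w ^ 3) * u 5 + (z * s - x * w ^ 2 + x * w ^ 3) * u 6 + (s + x - x * w - x * w ^ 2 + x * w ^ 3) * u 7 + (-y + y * w) * u 9,
    (w - z - w ^ 2) * u 0 + (x - z * s - x * w) * u 1 + (s - x + x * w) * u 9,
    (-y + y * w) * u 0 + (-z + z * w) * u 1 + (-s + x - x * w) * u 4 + (-s) * u 5 + (s ^ 2) * u 7,
    (-x) * u 0 + (s ^ 2) * u 9]

lemma h1_3_0 (x y z w s v0 v1 v2 v3 v4 v5 v6 : R) (hxy : x * y = z * w) (hxs : x * s = 0)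
    (hws : w * s = 0) :
    (1 - w) * (x ^ 2 + z * s ^ 2) * v0 =
      (z + w ^ 2) * ((s ^ 2) * v0) + (x * w) * ((-s + x - x * w) * v0) + (-s + x - x * w) * ((x - x * w) * v0) := by
  linear_combination (exp := 1) ((1) * v0) * hxs + ((-w * s - z * s) * v0) * hws

lemma h1_3_1 (x y z w s v0 v1 v2 v3 v4 v5 v6 : R) (hxy : x * y = z * w) (hxs : x * s = 0)
    (hws : w * s = 0) :
    (1 - w) * (x ^ 2 + z * s ^ 2) * v1 =
      (y ^ 2) * ((-s + x - x * w) * v0) + (-s ^ 2) * ((-z + z * w) * v1 + (-w + w ^ 2) * v4 + (-x + x * w) * v5 + (-y + y * w) * v6) + (-y * w) * ((z - z * w - y * s) * v0 + (s - z * s) * v2 + (-s ^ 2) * v6) + (y * w - y * w ^ 2) * ((-w + w ^ 2) * v0 + (-s - x + x * w) * v2 + (s ^ 2) * v6) + (-y * s + w ^ 3) * ((-y + 2 * y * w - y * w ^ 2) * v0 + (z * w - z * w ^ 2) * v2 + (s - x + x * w + x * w ^ 2 - x * w ^ 3) * v6) + (-w + w ^ 3)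 * ((-y * w + y * w ^ 2) * v0 + (-z + z * w ^ 2) * v2 + (-x * w ^ 2 + x * w ^ 3) * v6) + (-x) * ((-x + x * w) * v1 + (y - y * w) * v2 + (s ^ 2) * v5) := by
  linear_combination (exp := 1) ((-y + y * w) * v0 + (1 - 2 * w ^ 2 + w ^ 3) * v2 + (-s + w * s + w ^ 2 * s - w ^ 3 * s) * v6) * hxy + ((w * s) * v5) * hxs + ((y ^ 2 - y ^ 2 * w) * v0 + (2 * y - y * w - y * z * w) * v2 + (-s + w * s) * v4 + (-z - w ^ 2 + z * w - y * s + z * w ^ 2 + y * w * s - z * w ^ 3) * v6) * hws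

lemma h1_3_2 (x y z w s v0 v1 v2 v3 v4 v5 v6 : R) (hxy : x * y = z * w) (hxs : x * s = 0)
    (hws : w * s = 0) :
    (1 - w) * (x ^ 2 + z * s ^ 2) * v2 =
      (-y) * ((s ^ 2) * v0) + (-z) * ((-s + x - x * w) * v0) + (-s + x) * ((z - z * w - y * s) * v0 + (s - z * s) * v2 + (-s ^ 2) * v6) + (-s - x) * ((-w + w ^ 2) * v0 + (-s - x + x * w) * v2 + (s ^ 2) * v6) + (-w) * ((x - x * w) * v0) := by
  linear_combination (exp := 1) ((s) * v0) * hxy + ((-3 + w + z) * v2 + (2 * s) * v6) * hxs + ((-1 + w) * v0 + (-z * s) * v2) * hws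

lemma h1_3_3 (x y z w s v0 v1 v2 v3 v4 v5 v6 : R) (hxy : x * y = z * w) (hxs : x * s = 0)
    (hws : w * s = 0) :
    (1 - w) * (x ^ 2 + z * s ^ 2) * v3 =
      (y) * ((-y ^ 2 + y ^ 2 * w) * v0 + (x * w ^ 2 - x * w ^ 3) * v1 + (-y * z - y * w ^ 2 + y * z * w + y * w ^ 3) * v2 + (x - z * s - x * w) * v4 + (-s ^ 2) * v5 + (z - z * w - y * s - z * w ^ 2 + z * w ^ 3) * v6) + (z + w ^ 3) * ((-z + z * w) * v1 + (-w + w ^ 2) * v4 + (-x + x * w) * v5 + (-y + y * w) * v6) + (1 - w) * ((y ^ 3) * v0 + (z ^ 2) * v1 + (y ^ 2 * z + y ^ 2 * w ^ 2) * v2 + (x ^ 2 + z * s ^ 2) * v3 + (y * z * s + w ^ 4) * v4 + (x * z + y * s ^ 2 + x * w ^ 3) * v5 + (y ^ 2 * s + y * w ^ 3 + y * z * w ^ 2) * v6) := by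
  linear_combination (exp := 1) ((-w ^ 2 + w ^ 3) * v1 + (-1 + w) * v4) * hxy + ((y * z) * v4 + (y * s) * v5 + (y ^ 2) * v6) * hws

lemma h1_3_4 (x y z w s v0 v1 v2 v3 v4 v5 v6 : R) (hxy : x * y = z * w) (hxs : x * s = 0)
    (hws : w * s = 0) :
    (1 - w) * (x ^ 2 + z * s ^ 2) * v4 =
      (-s + x) * ((-y ^ 2 + y ^ 2 * w) * v0 + (x * w ^ 2 - x * w ^ 3) * v1 + (-y * z - y * w ^ 2 + y * z * w + y * w ^ 3) * v2 + (x - z * s - x * w) * v4 + (-s ^ 2) * v5 + (z - z * w - y * s - z * w ^ 2 + z * w ^ 3) * v6) + (y) * ((z - z * w - y * s) * v0 + (s - z * s) * v2 + (-s ^ 2) * v6) + (z) * ((-y + 2 * y * w - y * w ^ 2) * v0 + (z * w - z * w ^ 2) * v2 + (s - x + x * w + x * w ^ 2 - x * w ^ 3) * v6) + (-s + x * w ^ 2) * ((-x + x * w) * v1 + (y - y * w) * v2 + (s ^ 2) * v5) := by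
  linear_combination (exp := 1) ((y - y * w) * v0 + (z - z * w) * v2 + (s) * v6) * hxy + ((-1 + w + w ^ 2 - w ^ 3) * v1 + (1 - w + z) * v4 + (s - w ^ 2 * s) * v5) * hxs + ((y ^ 2) * v0 + (-y - y * w + y * z + y * w ^ 2) * v2 + (-z * s) * v4 + (-z * w + z * w ^ 2) * v6) * hws

lemma h1_3_5 (x y z w s v0 v1 v2 v3 v4 v5 v6 : R) (hxy : x * y = z * w) (hxs : x * s = 0)
    (hws : w * s = 0) :
    (1 - w) * (x ^ 2 + z * s ^ 2) * v5 =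
      (-w) * ((-y ^ 2 + y ^ 2 * w) * v0 + (x * w ^ 2 - x * w ^ 3) * v1 + (-y * z - y * w ^ 2 + y * z * w + y * w ^ 3) * v2 + (x - z * s - x * w) * v4 + (-s ^ 2) * v5 + (z - z * w - y * s - z * w ^ 2 + z * w ^ 3) * v6) + (-x) * ((-z + z * w) * v1 + (-w + w ^ 2) * v4 + (-x + x * w) * v5 + (-y + y * w) * v6) + (y) * ((-y * w + y * w ^ 2) * v0 + (-z + z * w ^ 2) * v2 + (-x * w ^ 2 + x * w ^ 3) * v6) + (z - w ^ 3) * ((-x + x * w) * v1 + (y - y * w) * v2 + (s ^ 2) * v5) := by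
  linear_combination (exp := 1) ((-1 + w + w ^ 2 - w ^ 3) * v6) * hxy + ((-z) * v4 + (-s - z * s + w ^ 2 * s) * v5 + (-y) * v6) * hws

lemma h1_3_6 (x y z w s v0 v1 v2 v3 v4 v5 v6 : R) (hxy : x * y = z * w) (hxs : x * s = 0)
    (hws : w * s = 0) :
    (1 - w) * (x ^ 2 + z * s ^ 2) * v6 =
      (-w) * ((z - z * w - y * s) * v0 + (s - z * s) * v2 + (-s ^ 2) * v6) + (z) * ((-w + w ^ 2) * v0 + (-s - x + x * w) * v2 + (s ^ 2) * v6) + (-x) * ((-y + 2 * y * w - y * w ^ 2) * v0 + (z * w - z * w ^ 2) * v2 + (s - x + x * w + x * w ^ 2 - x * w ^ 3) * v6) + (-s - x) * ((-y * w + y * w ^ 2) * v0 + (-z + z * w ^ 2) * v2 + (-x * w ^ 2 + x * w ^ 3) * v6) + (y) * ((x - x * w) * v0) := by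
  linear_combination (exp := 1) ((-2 + 2 * w) * v0) * hxy + ((1 - w ^ 2 + w ^ 3) * v6) * hxs + ((-2 * y + y * w) * v0 + (1 - z + z * w) * v2 + (-s - z * s) * v6) * hws

lemma h2_3_0 (x y z w s u0 u1 u2 u3 u4 u5 u6 u7 u8 u9 : R) (hxy : x * y = z * w) (hxs : x * s = 0)
    (hws : w * s = 0) :
    (1 - w) * (x ^ 2 + z * s ^ 2) * u0 =
      ((s ^ 2) * ((z + w ^ 2) * u0 + (x * w) * u1 + (-s + x - x * w) * u9)) + ((s - x + x * w) * ((-x) * u0 + (s ^ 2) * u9)) := by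
  linear_combination (exp := 1) ((1) * u0 + (-w * s) * u1) * hxs + ((-w * s - z * s) * u0) * hws

lemma h2_3_1 (x y z w s u0 u1 u2 u3 u4 u5 u6 u7 u8 u9 : R) (hxy : x * y = z * w) (hxs : x * s = 0)
    (hws : w * s = 0) :
    (1 - w) * (x ^ 2 + z * s ^ 2) * u1 =
      ((-s + x - x * w) * ((z + w ^ 2) * u0 + (x * w) * u1 + (-s + x - x * w) * u9)) + ((-s + x - x * w) * ((w - z - w ^ 2) * u0 + (x - z * s - x * w) * u1 + (s - x + x * w) * u9) + (w - w ^ 2) * ((-x) * u0 + (s ^ 2) * u9)) := by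
  linear_combination (exp := 1) ((1 + z - z * w) * u1) * hxs + ((1) * u0 + (-z * s) * u1 + (-s + w * s) * u9) * hws

lemma h2_3_2 (x y z w s u0 u1 u2 u3 u4 u5 u6 u7 u8 u9 : R) (hxy : x * y = z * w) (hxs : x * s = 0)
    (hws : w * s = 0) :
    (1 - w) * (x ^ 2 + z * s ^ 2) * u2 =
      ((-y ^ 2 + y ^ 2 * w) * ((z + w ^ 2) * u0 + (x * w) * u1 + (-s + x - x * w) * u9) + (x * w ^ 2 - x * w ^ 3) * ((y ^ 2) * u1 + (-s ^ 2) * u3 + (-y * w) * u4 + (y * w - y * w ^ 2) * u5 + (-y * s + w ^ 3) * u6 + (-w + w ^ 3) * u7 + (-x) * u8) + (-y * z - y * w ^ 2 + y * z * w + y * w ^ 3) * ((-y) * u0 + (-z) * u1 + (-s + x) * u4 + (-s - x) * u5 + (-w) * u9) + (x - z * s - x * w) * ((-s + x) * u2 + (y) * u4 + (z) * u6 + (-s + x * w ^ 2) * u8) + (-s ^ 2) * ((-w) * u2 + (-x) * u3 + (y) * u7 + (z - w ^ 3) * u8) + (z - z * w - y * s - z * w ^ 2 + z * w ^ 3) * ((-w) * u4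 + (z) * u5 + (-x) * u6 + (-s - x) * u7 + (y) * u9)) + ((z + w ^ 3) * ((-y * z + y * z * w) * u1 + (z * w - z * w ^ 2) * u4 + (-z + 2 * z * w ^ 2 - z * w ^ 3) * u5 + (z * s - x * w ^ 2 + x * w ^ 3) * u6 + (s + x - x * w - x * w ^ 2 + x * w ^ 3) * u7 + (-y + y * w) * u9)) := by
  linear_combination (exp := 1) ((y * w - 2 * y * w ^ 2 + y * w ^ 3) * u1 + (-1 + w + z + w ^ 2 - z * w - w ^ 4) * u4 + (-z - w ^ 2 + z * w + 2 * w ^ 4 - w ^ 5) * u5 + (-s + w ^ 2 * s - w ^ 3 * s) * u6 + (-s) * u7 + (y - 2 * y * w + y * w ^ 2) * u9) * hxy + ((1 - w + z) * u2 + (-s + w ^ 2 * s - w ^ 3 * s) * u3 + (1 - w + z * w ^ 2) * u8) * hxs + ((-s - z * s) * u2 + (-y - y * w + y * z + y * w ^ 2) * u4 + (-y * w + y * z + y * w ^ 2) * u5 + (-z - z * w ^ 3) * u6 + (-2 * z - w ^ 2 - z * w + z * w ^ 2) * u7 + (-w ^ 2 * s) * u8 + (y ^ 2) * u9) * hws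

lemma h2_3_3 (x y z w s u0 u1 u2 u3 u4 u5 u6 u7 u8 u9 : R) (hxy : x * y = z * w) (hxs : x * s = 0)
    (hws : w * s = 0) :
    (1 - w) * (x ^ 2 + z * s ^ 2) * u3 =
      ((-z + z * w) * ((y ^ 2) * u1 + (-s ^ 2) * u3 + (-y * w) * u4 + (y * w - y * w ^ 2) * u5 + (-y * s + w ^ 3) * u6 + (-w + w ^ 3) * u7 + (-x) * u8) + (-w + w ^ 2) * ((-s + x) * u2 + (y) * u4 + (z) * u6 + (-s + x * w ^ 2) * u8) + (-x + x * w) * ((-w) * u2 + (-x) * u3 + (y) * u7 + (z - w ^ 3) * u8) + (-y + y * w) * ((-w) * u4 + (z) * u5 + (-x) * u6 + (-s - x) * u7 + (y) * u9)) + ((-y) * ((-y * z + y * z * w) * u1 + (z * w - z * w ^ 2) * u4 + (-z + 2 * z * w ^ 2 - z * w ^ 3) * u5 + (z * s - x * w ^ 2 + x * w ^ 3) * u6 + (s + x - x * w - x * w ^ 2 + x * w ^ 3) * u7 + (-y + y * w) * u9)) := by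
  linear_combination (exp := 1) ((-1 + w - w ^ 2 + w ^ 3) * u6 + (1 - w - w ^ 2 + w ^ 3) * u7) * hxy + ((-1 + w) * u2 + (y * z) * u6 + (y) * u7 + (-1 + w) * u8) * hws

lemma h2_3_4 (x y z w s u0 u1 u2 u3 u4 u5 u6 u7 u8 u9 : R) (hxy : x * y = z * w) (hxs : x * s = 0)
    (hws : w * s = 0) :
    (1 - w) * (x ^ 2 + z * s ^ 2) * u4 =
      ((z - z * w - y * s) * ((z + w ^ 2) * u0 + (x * w) * u1 + (-s + x - x * w) * u9) + (s - z * s) * ((-y) * u0 + (-z) * u1 + (-s + x) * u4 + (-s - x) * u5 + (-w) * u9) + (-s ^ 2) * ((-w) * u4 + (z) * u5 + (-x) * u6 + (-s - x) * u7 + (y) * u9)) + ((z - z * w) * ((w - z - w ^ 2) * u0 + (x - z * s - x * w) * u1 + (s - x + x * w) * u9) + (-s + x) * ((-y + y * w) * u0 + (-z + z * w) * u1 + (-s + x - x * w) * u4 + (-s) * u5 + (s ^ 2) * u7)) := by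
  linear_combination (exp := 1) ((1 - w) * u0 + (w * s) * u1 + (s - w * s) * u9) * hxy + ((1 - w + z) * u4 + (2 - z) * u5 + (-s) * u6 + (-2 * s) * u7) * hxs + ((y + y * w) * u0 + (z + z * w - z ^ 2) * u1 + (-s - z * s) * u4 + (1 - z * w) * u9) * hws

lemma h2_3_5 (x y z w s u0 u1 u2 u3 u4 u5 u6 u7 u8 u9 : R) (hxy : x * y = z * w) (hxs : x * s = 0)
    (hws : w * s = 0) :
    (1 - w) * (x ^ 2 + z * s ^ 2) * u5 =
      ((-w + w ^ 2) * ((z + w ^ 2) * u0 + (x * w) * u1 + (-s + x - x * w) * u9) + (-s - x + x * w) * ((-y) * u0 + (-z) * u1 + (-s + x) * u4 + (-s - x) * u5 + (-w) * u9) + (s ^ 2) * ((-w) * u4 + (z) * u5 + (-x) * u6 + (-s - x) * u7 + (y) * u9)) + ((w ^ 2) * ((w - z - w ^ 2) * u0 + (x - z * s - x * w) * u1 + (s - x + x * w) * u9) + (s + x) * ((-y + y * w) * u0 + (-z + z * w) * u1 + (-s + x - x * w) * u4 + (-s) * u5 + (s ^ 2) * u7) + (-y)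 * ((-x) * u0 + (s ^ 2) * u9)) := by
  linear_combination (exp := 1) ((-1) * u0) * hxy + ((2 * w) * u4 + (-1 + w) * u5 + (s) * u6) * hxs + ((-y) * u0 + (-z + z * w) * u1 + (s) * u4 + (-z * s) * u5 + (-2) * u9) * hws

lemma h2_3_6 (x y z w s u0 u1 u2 u3 u4 u5 u6 u7 u8 u9 : R) (hxy : x * y = z * w) (hxs : x * s = 0)
    (hws : w * s = 0) :
    (1 - w) * (x ^ 2 + z * s ^ 2) * u6 =
      ((-y + 2 * y * w - y * w ^ 2) * ((z + w ^ 2) * u0 + (x * w) * u1 + (-s + x - x * w) * u9) + (z * w - z * w ^ 2) * ((-y) * u0 + (-z) * u1 + (-s + x) * u4 + (-s - x) * u5 + (-w) * u9) + (s - x + x * w + x * w ^ 2 - x * w ^ 3) * ((-w) * u4 + (z) * u5 + (-x) * u6 + (-s - x) * u7 + (y) * u9)) + ((s - x) * ((-y * z + y * z * w) * u1 + (z * w - z * w ^ 2) * u4 + (-z + 2 * z * w ^ 2 - z * w ^ 3) * u5 + (z * s - x * w ^ 2 + x * w ^ 3) * u6 + (s + x - x * w - x * w ^ 2 + x *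 w ^ 3) * u7 + (-y + y * w) * u9) + (-y + y * w) * ((w - z - w ^ 2) * u0 + (x - z * s - x * w) * u1 + (s - x + x * w) * u9) + (-w + w ^ 3) * ((-y + y * w) * u0 + (-z + z * w) * u1 + (-s + x - x * w) * u4 + (-s) * u5 + (s ^ 2) * u7)) := by
  linear_combination (exp := 1) ((1 - w - z - w ^ 2 + z * w + w ^ 3) * u1 + (-w + w ^ 2) * u9) * hxy + ((1 + z + w ^ 2 - w ^ 3) * u6 + (2 * w + 2 * w ^ 2 - 2 * w ^ 3) * u7) * hxs + ((w ^ 2) * u4 + (-1 + z + w ^ 2 - 3 * z * w + z * w ^ 2) * u5 + (-z * s) * u6 + (s - w ^ 2 * s) * u7 + (-y * w) * u9) * hws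

lemma h2_3_7 (x y z w s u0 u1 u2 u3 u4 u5 u6 u7 u8 u9 : R) (hxy : x * y = z * w) (hxs : x * s = 0)
    (hws : w * s = 0) :
    (1 - w) * (x ^ 2 + z * s ^ 2) * u7 =
      ((-y * w + y * w ^ 2) * ((z + w ^ 2) * u0 + (x * w) * u1 + (-s + x - x * w) * u9) + (-z + z * w ^ 2) * ((-y) * u0 + (-z) * u1 + (-s + x) * u4 + (-s - x) * u5 + (-w) * u9) + (-x * w ^ 2 + x * w ^ 3) * ((-w) * u4 + (z) * u5 + (-x) * u6 + (-s - x) * u7 + (y) * u9)) + ((x) * ((-y * z + y * z * w) * u1 + (z * w - z * w ^ 2) * u4 + (-z + 2 * z * w ^ 2 - z * w ^ 3) * u5 + (z * s - x * w ^ 2 + x * w ^ 3) * u6 + (s + x - x * w - x * w ^ 2 + x * w ^ 3) * u7 + (-y + y * w) * u9) + (z - w ^ 3) * ((-y + y * w) * u0 + (-z + z * w) * u1 + (-s + x - x * w) * u4 + (-s) * u5 + (s ^ 2) * u7)) := by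
  linear_combination (exp := 1) ((z + w ^ 2 - z * w - w ^ 3) * u1 + (1 - w ^ 2) * u9) * hxy + ((-z) * u6 + (-1 - w ^ 2 + w ^ 3) * u7) * hxs + ((-w ^ 2 + z * w) * u4 + (-w ^ 2 + z * w) * u5 + (-z * s + w ^ 2 * s) * u7 + (-y + y * w) * u9) * hws

lemma h2_3_8 (x y z w s u0 u1 u2 u3 u4 u5 u6 u7 u8 u9 : R) (hxy : x * y = z * w) (hxs : x * s = 0)
    (hws : w * s = 0) :
    (1 - w) * (x ^ 2 + z * s ^ 2) * u8 =
      ((-x + x * w) * ((y ^ 2) * u1 + (-s ^ 2) * u3 + (-y * w) * u4 + (y * w - y * w ^ 2) * u5 + (-y * s + w ^ 3) * u6 + (-w + w ^ 3) * u7 + (-x) * u8) + (y - y * w) * ((-y) * u0 + (-z) * u1 + (-s + x) * u4 + (-s - x) * u5 + (-w) * u9) + (s ^ 2) * ((-w) * u2 + (-x) * u3 + (y) * u7 + (z - w ^ 3) * u8)) + ((-w) * ((-y * z + y * z * w) * u1 + (z * w - z * w ^ 2) * u4 + (-z + 2 * z * w ^ 2 - z * w ^ 3) * u5 + (z * s - x * w ^ 2 + x * w ^ 3) * u6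 + (s + x - x * w - x * w ^ 2 + x * w ^ 3) * u7 + (-y + y * w) * u9) + (-y) * ((-y + y * w) * u0 + (-z + z * w) * u1 + (-s + x - x * w) * u4 + (-s) * u5 + (s ^ 2) * u7)) := by
  linear_combination (exp := 1) ((y - y * w) * u1 + (-w + w ^ 2) * u4 + (1 - 2 * w ^ 2 + w ^ 3) * u5 + (-s + w * s) * u6) * hxy + ((w * s) * u3) * hxs + ((s) * u2 + (-y) * u4 + (-y) * u5 + (z * w) * u6 + (1) * u7 + (-z * s + w ^ 2 * s) * u8) * hws

lemma h2_3_9 (x y z w s u0 u1 u2 u3 u4 u5 u6 u7 u8 u9 : R) (hxy : x * y = z * w) (hxs : x * s = 0)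
    (hws : w * s = 0) :
    (1 - w) * (x ^ 2 + z * s ^ 2) * u9 =
      ((x - x * w) * ((z + w ^ 2) * u0 + (x * w) * u1 + (-s + x - x * w) * u9)) + ((-x * w) * ((w - z - w ^ 2) * u0 + (x - z * s - x * w) * u1 + (s - x + x * w) * u9) + (z) * ((-x) * u0 + (s ^ 2) * u9)) := by
  linear_combination (exp := 1) ((-z * w) * u1 + (1) * u9) * hxs + ((-z * s) * u9) * hws

lemma h3_0_0 (x y z w s t0 t1 t2 t3 : R) (hxy : x * y = z * w) (hxs : x * s = 0)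
    (hws : w * s = 0) :
    (1 - w) * (y ^ 3) * t0 =
      (-y ^ 2 + y ^ 2 * w) * ((-y) * t0) := by
  linear_combination (exp := 1) 0

lemma h3_0_1 (x y z w s t0 t1 t2 t3 : R) (hxy : x * y = z * w) (hxs : x * s = 0)
    (hws : w * s = 0) :
    (1 - w) * (y ^ 3) * t1 =
      (y - y * w) * ((z + w ^ 3) * t0) + (z - w ^ 2 - y * s + w ^ 3) * ((-y) * t0) + (-y ^ 2) * ((s - x) * t0 + (-y + y * w) * t1 + (-w + w ^ 3) * t2) + (y * w - y * w ^ 3) * ((-w) * t0 + (-y) * t2) := by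
  linear_combination (exp := 1) ((-y) * t0) * hxy

lemma h3_0_2 (x y z w s t0 t1 t2 t3 : R) (hxy : x * y = z * w) (hxs : x * s = 0)
    (hws : w * s = 0) :
    (1 - w) * (y ^ 3) * t2 =
      (y * w - y * w ^ 2) * ((-y) * t0) + (-y ^ 2 + y ^ 2 * w) * ((-w) * t0 + (-y) * t2) := by
  linear_combination (exp := 1) 0

lemma h3_0_3 (x y z w s t0 t1 t2 t3 : R) (hxy : x * y = z * w) (hxs : x * s = 0)
    (hws : w * s = 0) :
    (1 - w) * (y ^ 3) * t3 =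
      (x * w) * ((-y) * t0) + (-y ^ 2 + y ^ 2 * w) * ((w ^ 2) * t1 + (s + x) * t2 + (-y) * t3) + (-y * w ^ 2) * ((s - x) * t0 + (-y + y * w) * t1 + (-w + w ^ 3) * t2) + (y - y * w ^ 2) * ((x) * t0 + (z - w ^ 3) * t2) + (z - z * w - y * s) * ((-w) * t0 + (-y) * t2) := by
  linear_combination (exp := 1) ((-1 + w) * t0 + (y - y * w) * t2) * hxy + ((-y + y * w) * t0 + (-y ^ 2) * t2) * hws

lemma h3_1_0 (x y z w s t0 t1 t2 t3 : R) (hxy : x * y = z * w) (hxs : x * s = 0)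
    (hws : w * s = 0) :
    (1 - w) * (z ^ 2) * t0 =
      (z - z * w) * ((z + w ^ 3) * t0) + (x * w ^ 2 - x * w ^ 3) * ((-y) * t0) := by
  linear_combination (exp := 1) ((w ^ 2 - w ^ 3) * t0) * hxy

lemma h3_1_1 (x y z w s t0 t1 t2 t3 : R) (hxy : x * y = z * w) (hxs : x * s = 0)
    (hws : w * s = 0) :
    (1 - w) * (z ^ 2) * t1 =
      (z) * ((z - z * w) * t1 + (-s + x) * t2) + (-z) * ((w ^ 2) * t1 + (s + x) * t2 + (-y) * t3) + (2 * s) * ((x) * t0 + (z - w ^ 3) * t2) + (-y) * ((-x * w) * t1 + (z) * t3) := by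
  linear_combination (exp := 1) ((-w) * t1) * hxy + ((-2) * t0) * hxs + ((2 * w ^ 2) * t2) * hws

lemma h3_1_2 (x y z w s t0 t1 t2 t3 : R) (hxy : x * y = z * w) (hxs : x * s = 0)
    (hws : w * s = 0) :
    (1 - w) * (z ^ 2) * t2 =
      (-x + x * w) * ((z + w ^ 3) * t0) + (z - z * w) * ((x) * t0 + (z - w ^ 3) * t2) + (-x * w ^ 2 + x * w ^ 3) * ((-w) * t0 + (-y) * t2) := by
  linear_combination (exp := 1) ((-w ^ 2 + w ^ 3) * t2) * hxy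

lemma h3_1_3 (x y z w s t0 t1 t2 t3 : R) (hxy : x * y = z * w) (hxs : x * s = 0)
    (hws : w * s = 0) :
    (1 - w) * (z ^ 2) * t3 =
      (-y + y * w) * ((s - x + x * w) * t3) + (-z + z * w) * ((-s + x - x * w) * t1 + (w - w ^ 2) * t3) + (-s + x) * ((z - z * w) * t1 + (-s + x) * t2) + (-s - x) * ((w ^ 2) * t1 + (s + x) * t2 + (-y) * t3) + (-w + z - z * w) * ((-x * w) * t1 + (z) * t3) := by
  linear_combination (exp := 1) ((-2 + 2 * w - w ^ 2) * t3) * hxy + ((4) * t2) * hxs + ((w) * t1 + (-y) * t3) * hws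

lemma h3_2_0 (x y z w s t0 t1 t2 t3 : R) (hxy : x * y = z * w) (hxs : x * s = 0)
    (hws : w * s = 0) :
    (1 - w) * (y ^ 2 * z + y ^ 2 * w ^ 2) * t0 =
      (-y * z - y * w ^ 2 + y * z * w + y * w ^ 3) * ((-y) * t0) := by
  linear_combination (exp := 1) 0

lemma h3_2_1 (x y z w s t0 t1 t2 t3 : R) (hxy : x * y = z * w) (hxs : x * s = 0)
    (hws : w * s = 0) :
    (1 - w) * (y ^ 2 * z + y ^ 2 * w ^ 2) * t1 =
      (w ^ 2 + z * w - 2 * y * s - w ^ 3) * ((z + w ^ 3) * t0) + (-z * s) * ((-y) * t0) + (2 * y ^ 2) * ((z - z * w) * t1 + (-s + x) * t2) + (y * z - y * w ^ 2) * ((s - x) * t0 + (-y + y * w) * t1 + (-w + w ^ 3) * t2) + (y - y * w) * ((x) * t0 + (z - w ^ 3) * t2) + (z - 2 * y * s + w ^ 4 + z * w ^ 3 - w ^ 5) * ((-w) * t0 + (-y) * t2) := by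
  linear_combination (exp := 1) ((-1 + w + z - w ^ 2) * t0 + (-2 * y) * t2) * hxy + ((-2 * y + y * w + 2 * y * w ^ 2) * t0) * hws

lemma h3_2_2 (x y z w s t0 t1 t2 t3 : R) (hxy : x * y = z * w) (hxs : x * s = 0)
    (hws : w * s = 0) :
    (1 - w) * (y ^ 2 * z + y ^ 2 * w ^ 2) * t2 =
      (-y + y * w) * ((z + w ^ 3) * t0) + (-z + 2 * z * w - z * w ^ 2) * ((-y) * t0) + (-y * z - y * w ^ 2 + y * z * w + y * w ^ 3) * ((-w) * t0 + (-y) * t2) := by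
  linear_combination (exp := 1) 0

lemma h3_2_3 (x y z w s t0 t1 t2 t3 : R) (hxy : x * y = z * w) (hxs : x * s = 0)
    (hws : w * s = 0) :
    (1 - w) * (y ^ 2 * z + y ^ 2 * w ^ 2) * t3 =
      (-y ^ 2 + y ^ 2 * w) * ((-s + x - x * w) * t1 + (w - w ^ 2) * t3) + (-s + x - x * w + x * w ^ 2) * ((z + w ^ 3) * t0) + (s ^ 2) * ((-y) * t0) + (y + y * w) * ((z - z * w) * t1 + (-s + x) * t2) + (-y * w - y * z + y * w ^ 2 + y * z * w) * ((w ^ 2) * t1 + (s + x) * t2 + (-y) * t3) + (z + y * s - w ^ 3) * ((s - x) * t0 + (-y + y * w) * t1 + (-w + w ^ 3) * t2) + (w + z * w + y * s - w ^ 3 - z * w ^ 2) * ((x) * t0 + (z - w ^ 3) * t2) + (-s + x + x * w ^ 2 - x * w ^ 3 + x * w ^ 4) * ((-w) * t0 + (-y) * t2) := by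
  linear_combination (exp := 1) ((y - 2 * y * w + y * w ^ 2) * t1 + (z - z * w - w ^ 3 + w ^ 4) * t2) * hxy + ((-1 + 2 * w ^ 2) * t0 + (3 * y - y * w - y * z) * t2) * hws

lemma h3_3_0 (x y z w s t0 t1 t2 t3 : R) (hxy : x * y = z * w) (hxs : x * s = 0)
    (hws : w * s = 0) :
    (1 - w) * (x ^ 2 + z * s ^ 2) * t0 =
      (-y * z + y * z * w) * ((-s + x - x * w) * t1 + (w - w ^ 2) * t3) + (z * w - z * w ^ 2) * ((z - z * w) * t1 + (-s + x) * t2) + (-z + 2 * z * w ^ 2 - z * w ^ 3) * ((w ^ 2) * t1 + (s + x) * t2 + (-y) * t3) + (z * s - x * w ^ 2 + x * w ^ 3) * ((s - x) * t0 + (-y + y * w) * t1 + (-w + w ^ 3) * t2) + (s + x - x * w - x * w ^ 2 + x * w ^ 3) * ((x) * t0 + (z - w ^ 3) * t2) + (-y + y * w) * ((-x * w) * t1 + (z) * t3) := by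
  linear_combination (exp := 1) ((-w + z - 2 * z * w + 2 * w ^ 3 + z * w ^ 2 - w ^ 4) * t1) * hxy + ((-1 + z + w ^ 2 - w ^ 3) * t0) * hxs + ((-z * s) * t0 + (2 * z + w ^ 2 - 3 * z * w) * t2) * hws

lemma h3_3_1 (x y z w s t0 t1 t2 t3 : R) (hxy : x * y = z * w) (hxs : x * s = 0)
    (hws : w * s = 0) :
    (1 - w) * (x ^ 2 + z * s ^ 2) * t1 =
      (w - z - w ^ 2) * ((s - x + x * w) * t3) + (x - z * s - x * w) * ((-s + x - x * w) * t1 + (w - w ^ 2) * t3) + (s - x + x * w) * ((-x * w) * t1 + (z) * t3) := by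
  linear_combination (exp := 1) ((1 + z - z * w) * t1) * hxs + ((-z * s) * t1 + (-1 + w + z - z * w) * t3) * hws

lemma h3_3_2 (x y z w s t0 t1 t2 t3 : R) (hxy : x * y = z * w) (hxs : x * s = 0)
    (hws : w * s = 0) :
    (1 - w) * (x ^ 2 + z * s ^ 2) * t2 =
      (-y + y * w) * ((s - x + x * w) * t3) + (-z + z * w) * ((-s + x - x * w) * t1 + (w - w ^ 2) * t3) + (-s + x - x * w) * ((z - z * w) * t1 + (-s + x) * t2) + (-s) * ((w ^ 2) * t1 + (s + x) * t2 + (-y) * t3) + (s ^ 2) * ((x) * t0 + (z - w ^ 3) * t2) := by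
  linear_combination (exp := 1) ((-1 + 2 * w - w ^ 2) * t3) * hxy + ((-s) * t0 + (3 - w) * t2) * hxs + ((w) * t1 + (-z * s + w ^ 2 * s) * t2 + (-y) * t3) * hws

lemma h3_3_3 (x y z w s t0 t1 t2 t3 : R) (hxy : x * y = z * w) (hxs : x * s = 0)
    (hws : w * s = 0) :
    (1 - w) * (x ^ 2 + z * s ^ 2) * t3 =
      (-x) * ((s - x + x * w) * t3) + (s ^ 2) * ((-x * w) * t1 + (z) * t3) := by
  linear_combination (exp := 1) ((w * s) * t1 + (1) * t3) * hxs + ((-z * s) * t3) * hws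

/-- left inverse -/
def lf (x y z w s : R) (u : Fin 10 → R) : Fin 4 → R :=
  ![(-y * s ^ 2) * u 1 + (w - w ^ 2) * u 2 + (x - x * w) * u 3 + (s ^ 3) * u 6,
    (y ^ 2 * w) * u 0 + (y * w - y * z - s ^ 3 + y * z * w) * u 1 + (-s ^ 2) * u 2 + (-w ^ 2 + z * w + w ^ 3 - z * w ^ 2) * u 4 + (w ^ 2 - z * w - w ^ 3 + z * w ^ 2) * u 5 + (z * s) * u 6,
    (-z * s ^ 2) * u 1 + (-s ^ 3) * u 4 + (-w + w ^ 2) * u 7 + (-x + x * w) * u 8,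
    (s ^ 3 + y * w ^ 2) * u 0 + (-z * w + w ^ 3 + z * w ^ 2) * u 1 + (x * w - x * w ^ 2) * u 4 + (-x * w + x * w ^ 2) * u 5]

lemma hH_0 (x y z w s t0 t1 t2 t3 : R) (hxy : x * y = z * w) (hxs : x * s = 0)
    (hws : w * s = 0) :
    (1 - w) * (s + w) ^ 4 * t0 =
      (-y * s ^ 2) * ((-s + x - x * w) * t1 + (w - w ^ 2) * t3) + (w - w ^ 2) * ((z + w ^ 3) * t0) + (x - x * w) * ((-y) * t0) + (s ^ 3) * ((s - x) * t0 + (-y + y * w) * t1 + (-w + w ^ 3) * t2) := by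
  linear_combination (exp := 1) ((1 - w) * t0 + (s ^ 2 - w * s ^ 2) * t1) * hxy + ((s ^ 2) * t0) * hxs + ((4 * s ^ 2 + 6 * w * s + 4 * w ^ 2 - s ^ 3 - 4 * w * s ^ 2 - 6 * w ^ 2 * s - 4 * w ^ 3) * t0 + (z * s - z * w * s - y * s ^ 2) * t1 + (s ^ 2 - w ^ 2 * s ^ 2) * t2 + (y * s - y * w * s) * t3) * hws

lemma hH_1 (x y z w s t0 t1 t2 t3 : R) (hxy : x * y = z * w) (hxs : x * s = 0)
    (hws : w * s = 0) :
    (1 - w) * (s + w) ^ 4 * t1 =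
      (y ^ 2 * w) * ((s - x + x * w) * t3) + (y * w - y * z - s ^ 3 + y * z * w) * ((-s + x - x * w) * t1 + (w - w ^ 2) * t3) + (-s ^ 2) * ((z + w ^ 3) * t0) + (-w ^ 2 + z * w + w ^ 3 - z * w ^ 2) * ((z - z * w) * t1 + (-s + x) * t2) + (w ^ 2 - z * w - w ^ 3 + z * w ^ 2) * ((w ^ 2) * t1 + (s + x) * t2 + (-y) * t3) + (z * s) * ((s - x) * t0 + (-y + y * w) * t1 + (-w + w ^ 3) * t2) := by
  linear_combination (exp := 1) ((-w + z + w ^ 2 - 2 * z * w + z * w ^ 2) * t1 + (y * w - y * w ^ 2) * t3) * hxy + ((z) * t0 + (s ^ 2 - w * s ^ 2) * t1) * hxs + ((w ^ 2 * s) * t0 + (y + 4 * s ^ 2 + 6 * w * s + 4 * w ^ 2 - s ^ 3 - 4 * w * s ^ 2 - 6 * w ^ 2 * s - 4 * w ^ 3) * t1 + (-2 * w + 3 * z + 2 * w ^ 2 - 2 * z * w - z * w ^ 2) * t2 + (s ^ 2 - y ^ 2 - w * s ^ 2) * t3) * hws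

lemma hH_2 (x y z w s t0 t1 t2 t3 : R) (hxy : x * y = z * w) (hxs : x * s = 0)
    (hws : w * s = 0) :
    (1 - w) * (s + w) ^ 4 * t2 =
      (-z * s ^ 2) * ((-s + x - x * w) * t1 + (w - w ^ 2) * t3) + (-s ^ 3) * ((z - z * w) * t1 + (-s + x) * t2) + (-w + w ^ 2) * ((x) * t0 + (z - w ^ 3) * t2) + (-x + x * w) * ((-w) * t0 + (-y) * t2) := by
  linear_combination (exp := 1) ((-1 + w) * t2) * hxy + ((z * s - z * w * s) * t1 + (s ^ 2) * t2) * hxs + ((-z * s ^ 2) * t1 + (4 * s ^ 2 + 6 * w * s + 4 * w ^ 2 - s ^ 3 - 4 * w * s ^ 2 - 6 * w ^ 2 * s - 4 * w ^ 3) * t2 + (z * s - z * w * s) * t3) * hws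

lemma hH_3 (x y z w s t0 t1 t2 t3 : R) (hxy : x * y = z * w) (hxs : x * s = 0)
    (hws : w * s = 0) :
    (1 - w) * (s + w) ^ 4 * t3 =
      (s ^ 3 + y * w ^ 2) * ((s - x + x * w) * t3) + (-z * w + w ^ 3 + z * w ^ 2) * ((-s + x - x * w) * t1 + (w - w ^ 2) * t3) + (x * w - x * w ^ 2) * ((z - z * w) * t1 + (-s + x) * t2) + (-x * w + x * w ^ 2) * ((w ^ 2) * t1 + (s + x) * t2 + (-y) * t3) := by
  linear_combination (exp := 1) ((-w + 2 * w ^ 2 - w ^ 3) * t3) * hxy + ((2 * w - 2 * w ^ 2) * t2 + (s ^ 2 - w * s ^ 2) * t3) * hxs + ((-z + w ^ 2 + z * w) * t1 + (4 * s ^ 2 + 6 * w * s + 4 * w ^ 2 - y * w - s ^ 3 - 4 * w * s ^ 2 - 6 * w ^ 2 * s - 4 * w ^ 3) * t3) * hws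

end Pool.Agent.H607R3.PS
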