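import Mathlib
import Pool.Agent.H607R3.PS.Hom

set_option autoImplicit false
set_option linter.all false

namespace Pool.Agent.H607R3.PS

variable {R : Type} [CommRing R]

/-- first map, linear -/
def d1L (x y z w s : R) : (Fin 7 → R) →ₗ[R] R where
  toFun := d1f x y z w s
  map_add' := by intro u v; simp only [d1f, Pi.add_apply]; ring
  map_smul' := by intro u v; simp only [d1f, Pi.smul_apply, smul_eq_mul, RingHom.id_apply]; ring

/-- second map, linear -/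
def d2L (x y z w s : R) : (Fin 10 → R) →ₗ[R] (Fin 7 → R) where
  toFun := d2f x y z w s
  map_add' := by
    intro u v
    funext k
    fin_cases k <;> simp [d2f] <;> ring
  map_smul' := by
    intro u v
    funext k
    fin_cases k <;> simp [d2f] <;> ring

/-- third map, linear -/
def d3L (x y z w s : R) : (Fin 4 → R) →ₗ[R] (Fin 10 → R) where
  toFun := d3f x y z w s
  map_add' := by
    intro u v
    funext k
    fin_cases k <;> simp [d3f] <;> ring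
  map_smul' := by
    intro u v
    funext k
    fin_cases k <;> simp [d3f] <;> ring

/-- left inverse, linear -/
def lfL (x y z w s : R) : (Fin 10 → R) →ₗ[R] (Fin 4 → R) where
  toFun := lf x y z w s
  map_add' := by
    intro u v
    funext k
    fin_cases k <;> simp [lf] <;> ring
  map_smul' := by
    intro u v
    funext k
    fin_cases k <;> simp [lf] <;> ring

section

variable (x y z w s : R) (hxy : x * y = z * w) (hxs : x * s = 0) (hws : w * s = 0)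

include hxy hxs hws

theorem d1d2 (u : Fin 10 → R) : d1L x y z w s (d2L x y z w s u) = 0 :=
  comp12 x y z w s (u 0) (u 1) (u 2) (u 3) (u 4) (u 5) (u 6) (u 7) (u 8) (u 9) hxy hxs hws

theorem d2d3 (t : Fin 4 → R) : d2L x y z w s (d3L x y z w s t) = 0 := by
  funext k
  fin_cases k
  · exact comp23_0 x y z w s (t 0) (t 1) (t 2) (t 3) hxy hxs hws
  · exact comp23_1 x y z w s (t 0) (t 1) (t 2) (t 3) hxy hxs hws
  · exact comp23_2 x y z w s (t 0) (t 1) (t 2) (t 3) hxy hxs hws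
  · exact comp23_3 x y z w s (t 0) (t 1) (t 2) (t 3) hxy hxs hws
  · exact comp23_4 x y z w s (t 0) (t 1) (t 2) (t 3) hxy hxs hws
  · exact comp23_5 x y z w s (t 0) (t 1) (t 2) (t 3) hxy hxs hws
  · exact comp23_6 x y z w s (t 0) (t 1) (t 2) (t 3) hxy hxs hws

theorem lfd3 (t : Fin 4 → R) (k : Fin 4) :
    lfL x y z w s (d3L x y z w s t) k = (1 - w) * (s + w) ^ 4 * t k := by
  fin_cases k
  · exact (hH_0 x y z w s (t 0) (t 1) (t 2) (t 3) hxy hxs hws).symm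
  · exact (hH_1 x y z w s (t 0) (t 1) (t 2) (t 3) hxy hxs hws).symm
  · exact (hH_2 x y z w s (t 0) (t 1) (t 2) (t 3) hxy hxs hws).symm
  · exact (hH_3 x y z w s (t 0) (t 1) (t 2) (t 3) hxy hxs hws).symm

theorem H1_0 (v : Fin 7 → R) (hv : d1L x y z w s v = 0) :
    d2L x y z w s (s1_0 x y z w s v) = fun k => (1 - w) * (y ^ 3) * v k := by
  funext k
  fin_cases k
  · have h' : (1 - w) * (y ^ 3) * v 0 =
        d2L x y z w s (s1_0 x y z w s v) 0 + (1 - w) * d1L x y z w s v :=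
      h1_0_0 x y z w s (v 0) (v 1) (v 2) (v 3) (v 4) (v 5) (v 6) hxy hxs hws
    rw [hv, mul_zero, add_zero] at h'
    exact h'.symm
  · exact (h1_0_1 x y z w s (v 0) (v 1) (v 2) (v 3) (v 4) (v 5) (v 6) hxy hxs hws).symm
  · exact (h1_0_2 x y z w s (v 0) (v 1) (v 2) (v 3) (v 4) (v 5) (v 6) hxy hxs hws).symm
  · exact (h1_0_3 x y z w s (v 0) (v 1) (v 2) (v 3) (v 4) (v 5) (v 6) hxy hxs hws).symm
  · exact (h1_0_4 x y z w s (v 0) (v 1) (v 2) (v 3) (v 4) (v 5) (v 6) hxy hxs hws).symm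
  · exact (h1_0_5 x y z w s (v 0) (v 1) (v 2) (v 3) (v 4) (v 5) (v 6) hxy hxs hws).symm
  · exact (h1_0_6 x y z w s (v 0) (v 1) (v 2) (v 3) (v 4) (v 5) (v 6) hxy hxs hws).symm

omit hxy hxs hws in
theorem s1_0_zero (k : Fin 10) : s1_0 x y z w s 0 k = 0 := by
  fin_cases k <;> simp [s1_0]

theorem H2_0 (u : Fin 10 → R) (hu : d2L x y z w s u = 0) :
    d3L x y z w s (s2_0 x y z w s u) = fun k => (1 - w) * (y ^ 3) * u k := by
  funext k
  have key : (1 - w) * (y ^ 3) * u k =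
      s1_0 x y z w s (d2L x y z w s u) k + d3L x y z w s (s2_0 x y z w s u) k := by
    fin_cases k
    · exact h2_0_0 x y z w s (u 0) (u 1) (u 2) (u 3) (u 4) (u 5) (u 6) (u 7) (u 8) (u 9) hxy hxs hws
    · exact h2_0_1 x y z w s (u 0) (u 1) (u 2) (u 3) (u 4) (u 5) (u 6) (u 7) (u 8) (u 9) hxy hxs hws
    · exact h2_0_2 x y z w s (u 0) (u 1) (u 2) (u 3) (u 4) (u 5) (u 6) (u 7) (u 8) (u 9) hxy hxs hws
    · exact h2_0_3 x y z w s (u 0) (u 1) (u 2) (u 3) (u 4) (u 5) (u 6) (u 7) (u 8) (u 9) hxy hxs hws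
    · exact h2_0_4 x y z w s (u 0) (u 1) (u 2) (u 3) (u 4) (u 5) (u 6) (u 7) (u 8) (u 9) hxy hxs hws
    · exact h2_0_5 x y z w s (u 0) (u 1) (u 2) (u 3) (u 4) (u 5) (u 6) (u 7) (u 8) (u 9) hxy hxs hws
    · exact h2_0_6 x y z w s (u 0) (u 1) (u 2) (u 3) (u 4) (u 5) (u 6) (u 7) (u 8) (u 9) hxy hxs hws
    · exact h2_0_7 x y z w s (u 0) (u 1) (u 2) (u 3) (u 4) (u 5) (u 6) (u 7) (u 8) (u 9) hxy hxs hws
    · exact h2_0_8 x y z w s (u 0) (u 1) (u 2) (u 3) (u 4) (u 5) (u 6) (u 7) (u 8) (u 9) hxy hxs hws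
    · exact h2_0_9 x y z w s (u 0) (u 1) (u 2) (u 3) (u 4) (u 5) (u 6) (u 7) (u 8) (u 9) hxy hxs hws
  rw [hu, s1_0_zero, zero_add] at key
  exact key.symm

theorem H1_1 (v : Fin 7 → R) (hv : d1L x y z w s v = 0) :
    d2L x y z w s (s1_1 x y z w s v) = fun k => (1 - w) * (z ^ 2) * v k := by
  funext k
  fin_cases k
  · exact (h1_1_0 x y z w s (v 0) (v 1) (v 2) (v 3) (v 4) (v 5) (v 6) hxy hxs hws).symm
  · have h' : (1 - w) * (z ^ 2) * v 1 =
        d2L x y z w s (s1_1 x y z w s v) 1 + (1 - w) * d1L x y z w s v :=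
      h1_1_1 x y z w s (v 0) (v 1) (v 2) (v 3) (v 4) (v 5) (v 6) hxy hxs hws
    rw [hv, mul_zero, add_zero] at h'
    exact h'.symm
  · exact (h1_1_2 x y z w s (v 0) (v 1) (v 2) (v 3) (v 4) (v 5) (v 6) hxy hxs hws).symm
  · exact (h1_1_3 x y z w s (v 0) (v 1) (v 2) (v 3) (v 4) (v 5) (v 6) hxy hxs hws).symm
  · exact (h1_1_4 x y z w s (v 0) (v 1) (v 2) (v 3) (v 4) (v 5) (v 6) hxy hxs hws).symm
  · exact (h1_1_5 x y z w s (v 0) (v 1) (v 2) (v 3) (v 4) (v 5) (v 6) hxy hxs hws).symm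
  · exact (h1_1_6 x y z w s (v 0) (v 1) (v 2) (v 3) (v 4) (v 5) (v 6) hxy hxs hws).symm

omit hxy hxs hws in
theorem s1_1_zero (k : Fin 10) : s1_1 x y z w s 0 k = 0 := by
  fin_cases k <;> simp [s1_1]

theorem H2_1 (u : Fin 10 → R) (hu : d2L x y z w s u = 0) :
    d3L x y z w s (s2_1 x y z w s u) = fun k => (1 - w) * (z ^ 2) * u k := by
  funext k
  have key : (1 - w) * (z ^ 2) * u k =
      s1_1 x y z w s (d2L x y z w s u) k + d3L x y z w s (s2_1 x y z w s u) k := by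
    fin_cases k
    · exact h2_1_0 x y z w s (u 0) (u 1) (u 2) (u 3) (u 4) (u 5) (u 6) (u 7) (u 8) (u 9) hxy hxs hws
    · exact h2_1_1 x y z w s (u 0) (u 1) (u 2) (u 3) (u 4) (u 5) (u 6) (u 7) (u 8) (u 9) hxy hxs hws
    · exact h2_1_2 x y z w s (u 0) (u 1) (u 2) (u 3) (u 4) (u 5) (u 6) (u 7) (u 8) (u 9) hxy hxs hws
    · exact h2_1_3 x y z w s (u 0) (u 1) (u 2) (u 3) (u 4) (u 5) (u 6) (u 7) (u 8) (u 9) hxy hxs hws
    · exact h2_1_4 x y z w s (u 0) (u 1) (u 2) (u 3) (u 4) (u 5) (u 6) (u 7) (u 8) (u 9) hxy hxs hws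
    · exact h2_1_5 x y z w s (u 0) (u 1) (u 2) (u 3) (u 4) (u 5) (u 6) (u 7) (u 8) (u 9) hxy hxs hws
    · exact h2_1_6 x y z w s (u 0) (u 1) (u 2) (u 3) (u 4) (u 5) (u 6) (u 7) (u 8) (u 9) hxy hxs hws
    · exact h2_1_7 x y z w s (u 0) (u 1) (u 2) (u 3) (u 4) (u 5) (u 6) (u 7) (u 8) (u 9) hxy hxs hws
    · exact h2_1_8 x y z w s (u 0) (u 1) (u 2) (u 3) (u 4) (u 5) (u 6) (u 7) (u 8) (u 9) hxy hxs hws
    · exact h2_1_9 x y z w s (u 0) (u 1) (u 2) (u 3) (u 4) (u 5) (u 6) (u 7) (u 8) (u 9) hxy hxs hws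
  rw [hu, s1_1_zero, zero_add] at key
  exact key.symm

theorem H1_2 (v : Fin 7 → R) (hv : d1L x y z w s v = 0) :
    d2L x y z w s (s1_2 x y z w s v) = fun k => (1 - w) * (y ^ 2 * z + y ^ 2 * w ^ 2) * v k := by
  funext k
  fin_cases k
  · exact (h1_2_0 x y z w s (v 0) (v 1) (v 2) (v 3) (v 4) (v 5) (v 6) hxy hxs hws).symm
  · exact (h1_2_1 x y z w s (v 0) (v 1) (v 2) (v 3) (v 4) (v 5) (v 6) hxy hxs hws).symm
  · have h' : (1 - w) * (y ^ 2 * z + y ^ 2 * w ^ 2) * v 2 =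
        d2L x y z w s (s1_2 x y z w s v) 2 + (1 - w) * d1L x y z w s v :=
      h1_2_2 x y z w s (v 0) (v 1) (v 2) (v 3) (v 4) (v 5) (v 6) hxy hxs hws
    rw [hv, mul_zero, add_zero] at h'
    exact h'.symm
  · exact (h1_2_3 x y z w s (v 0) (v 1) (v 2) (v 3) (v 4) (v 5) (v 6) hxy hxs hws).symm
  · exact (h1_2_4 x y z w s (v 0) (v 1) (v 2) (v 3) (v 4) (v 5) (v 6) hxy hxs hws).symm
  · exact (h1_2_5 x y z w s (v 0) (v 1) (v 2) (v 3) (v 4) (v 5) (v 6) hxy hxs hws).symm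
  · exact (h1_2_6 x y z w s (v 0) (v 1) (v 2) (v 3) (v 4) (v 5) (v 6) hxy hxs hws).symm

omit hxy hxs hws in
theorem s1_2_zero (k : Fin 10) : s1_2 x y z w s 0 k = 0 := by
  fin_cases k <;> simp [s1_2]

theorem H2_2 (u : Fin 10 → R) (hu : d2L x y z w s u = 0) :
    d3L x y z w s (s2_2 x y z w s u) = fun k => (1 - w) * (y ^ 2 * z + y ^ 2 * w ^ 2) * u k := by
  funext k
  have key : (1 - w) * (y ^ 2 * z + y ^ 2 * w ^ 2) * u k =
      s1_2 x y z w s (d2L x y z w s u) k + d3L x y z w s (s2_2 x y z w s u) k := by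
    fin_cases k
    · exact h2_2_0 x y z w s (u 0) (u 1) (u 2) (u 3) (u 4) (u 5) (u 6) (u 7) (u 8) (u 9) hxy hxs hws
    · exact h2_2_1 x y z w s (u 0) (u 1) (u 2) (u 3) (u 4) (u 5) (u 6) (u 7) (u 8) (u 9) hxy hxs hws
    · exact h2_2_2 x y z w s (u 0) (u 1) (u 2) (u 3) (u 4) (u 5) (u 6) (u 7) (u 8) (u 9) hxy hxs hws
    · exact h2_2_3 x y z w s (u 0) (u 1) (u 2) (u 3) (u 4) (u 5) (u 6) (u 7) (u 8) (u 9) hxy hxs hws
    · exact h2_2_4 x y z w s (u 0) (u 1) (u 2) (u 3) (u 4) (u 5) (u 6) (u 7) (u 8) (u 9) hxy hxs hws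
    · exact h2_2_5 x y z w s (u 0) (u 1) (u 2) (u 3) (u 4) (u 5) (u 6) (u 7) (u 8) (u 9) hxy hxs hws
    · exact h2_2_6 x y z w s (u 0) (u 1) (u 2) (u 3) (u 4) (u 5) (u 6) (u 7) (u 8) (u 9) hxy hxs hws
    · exact h2_2_7 x y z w s (u 0) (u 1) (u 2) (u 3) (u 4) (u 5) (u 6) (u 7) (u 8) (u 9) hxy hxs hws
    · exact h2_2_8 x y z w s (u 0) (u 1) (u 2) (u 3) (u 4) (u 5) (u 6) (u 7) (u 8) (u 9) hxy hxs hws
    · exact h2_2_9 x y z w s (u 0) (u 1) (u 2) (u 3) (u 4) (u 5) (u 6) (u 7) (u 8) (u 9) hxy hxs hws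
  rw [hu, s1_2_zero, zero_add] at key
  exact key.symm

theorem H1_3 (v : Fin 7 → R) (hv : d1L x y z w s v = 0) :
    d2L x y z w s (s1_3 x y z w s v) = fun k => (1 - w) * (x ^ 2 + z * s ^ 2) * v k := by
  funext k
  fin_cases k
  · exact (h1_3_0 x y z w s (v 0) (v 1) (v 2) (v 3) (v 4) (v 5) (v 6) hxy hxs hws).symm
  · exact (h1_3_1 x y z w s (v 0) (v 1) (v 2) (v 3) (v 4) (v 5) (v 6) hxy hxs hws).symm
  · exact (h1_3_2 x y z w s (v 0) (v 1) (v 2) (v 3) (v 4) (v 5) (v 6) hxy hxs hws).symm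
  · have h' : (1 - w) * (x ^ 2 + z * s ^ 2) * v 3 =
        d2L x y z w s (s1_3 x y z w s v) 3 + (1 - w) * d1L x y z w s v :=
      h1_3_3 x y z w s (v 0) (v 1) (v 2) (v 3) (v 4) (v 5) (v 6) hxy hxs hws
    rw [hv, mul_zero, add_zero] at h'
    exact h'.symm
  · exact (h1_3_4 x y z w s (v 0) (v 1) (v 2) (v 3) (v 4) (v 5) (v 6) hxy hxs hws).symm
  · exact (h1_3_5 x y z w s (v 0) (v 1) (v 2) (v 3) (v 4) (v 5) (v 6) hxy hxs hws).symm
  · exact (h1_3_6 x y z w s (v 0) (v 1) (v 2) (v 3) (v 4) (v 5) (v 6) hxy hxs hws).symm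

omit hxy hxs hws in
theorem s1_3_zero (k : Fin 10) : s1_3 x y z w s 0 k = 0 := by
  fin_cases k <;> simp [s1_3]

theorem H2_3 (u : Fin 10 → R) (hu : d2L x y z w s u = 0) :
    d3L x y z w s (s2_3 x y z w s u) = fun k => (1 - w) * (x ^ 2 + z * s ^ 2) * u k := by
  funext k
  have key : (1 - w) * (x ^ 2 + z * s ^ 2) * u k =
      s1_3 x y z w s (d2L x y z w s u) k + d3L x y z w s (s2_3 x y z w s u) k := by
    fin_cases k
    · exact h2_3_0 x y z w s (u 0) (u 1) (u 2) (u 3) (u 4) (u 5) (u 6) (u 7) (u 8) (u 9) hxy hxs hws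
    · exact h2_3_1 x y z w s (u 0) (u 1) (u 2) (u 3) (u 4) (u 5) (u 6) (u 7) (u 8) (u 9) hxy hxs hws
    · exact h2_3_2 x y z w s (u 0) (u 1) (u 2) (u 3) (u 4) (u 5) (u 6) (u 7) (u 8) (u 9) hxy hxs hws
    · exact h2_3_3 x y z w s (u 0) (u 1) (u 2) (u 3) (u 4) (u 5) (u 6) (u 7) (u 8) (u 9) hxy hxs hws
    · exact h2_3_4 x y z w s (u 0) (u 1) (u 2) (u 3) (u 4) (u 5) (u 6) (u 7) (u 8) (u 9) hxy hxs hws
    · exact h2_3_5 x y z w s (u 0) (u 1) (u 2) (u 3) (u 4) (u 5) (u 6) (u 7) (u 8) (u 9) hxy hxs hws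
    · exact h2_3_6 x y z w s (u 0) (u 1) (u 2) (u 3) (u 4) (u 5) (u 6) (u 7) (u 8) (u 9) hxy hxs hws
    · exact h2_3_7 x y z w s (u 0) (u 1) (u 2) (u 3) (u 4) (u 5) (u 6) (u 7) (u 8) (u 9) hxy hxs hws
    · exact h2_3_8 x y z w s (u 0) (u 1) (u 2) (u 3) (u 4) (u 5) (u 6) (u 7) (u 8) (u 9) hxy hxs hws
    · exact h2_3_9 x y z w s (u 0) (u 1) (u 2) (u 3) (u 4) (u 5) (u 6) (u 7) (u 8) (u 9) hxy hxs hws
  rw [hu, s1_3_zero, zero_add] at key
  exact key.symm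

theorem H3_0 (t : Fin 4 → R) (ht : d3L x y z w s t = 0) (k : Fin 4) :
    (1 - w) * (y ^ 3) * t k = 0 := by
  have key : (1 - w) * (y ^ 3) * t k = s2_0 x y z w s (d3L x y z w s t) k := by
    fin_cases k
    · exact h3_0_0 x y z w s (t 0) (t 1) (t 2) (t 3) hxy hxs hws
    · exact h3_0_1 x y z w s (t 0) (t 1) (t 2) (t 3) hxy hxs hws
    · exact h3_0_2 x y z w s (t 0) (t 1) (t 2) (t 3) hxy hxs hws
    · exact h3_0_3 x y z w s (t 0) (t 1) (t 2) (t 3) hxy hxs hws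
  rw [key, ht]
  fin_cases k <;> simp [s2_0]

theorem H3_1 (t : Fin 4 → R) (ht : d3L x y z w s t = 0) (k : Fin 4) :
    (1 - w) * (z ^ 2) * t k = 0 := by
  have key : (1 - w) * (z ^ 2) * t k = s2_1 x y z w s (d3L x y z w s t) k := by
    fin_cases k
    · exact h3_1_0 x y z w s (t 0) (t 1) (t 2) (t 3) hxy hxs hws
    · exact h3_1_1 x y z w s (t 0) (t 1) (t 2) (t 3) hxy hxs hws
    · exact h3_1_2 x y z w s (t 0) (t 1) (t 2) (t 3) hxy hxs hws
    · exact h3_1_3 x y z w s (t 0) (t 1) (t 2) (t 3) hxy hxs hws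
  rw [key, ht]
  fin_cases k <;> simp [s2_1]

theorem H3_2 (t : Fin 4 → R) (ht : d3L x y z w s t = 0) (k : Fin 4) :
    (1 - w) * (y ^ 2 * z + y ^ 2 * w ^ 2) * t k = 0 := by
  have key : (1 - w) * (y ^ 2 * z + y ^ 2 * w ^ 2) * t k = s2_2 x y z w s (d3L x y z w s t) k := by
    fin_cases k
    · exact h3_2_0 x y z w s (t 0) (t 1) (t 2) (t 3) hxy hxs hws
    · exact h3_2_1 x y z w s (t 0) (t 1) (t 2) (t 3) hxy hxs hws
    · exact h3_2_2 x y z w s (t 0) (t 1) (t 2) (t 3) hxy hxs hws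
    · exact h3_2_3 x y z w s (t 0) (t 1) (t 2) (t 3) hxy hxs hws
  rw [key, ht]
  fin_cases k <;> simp [s2_2]

theorem H3_3 (t : Fin 4 → R) (ht : d3L x y z w s t = 0) (k : Fin 4) :
    (1 - w) * (x ^ 2 + z * s ^ 2) * t k = 0 := by
  have key : (1 - w) * (x ^ 2 + z * s ^ 2) * t k = s2_3 x y z w s (d3L x y z w s t) k := by
    fin_cases k
    · exact h3_3_0 x y z w s (t 0) (t 1) (t 2) (t 3) hxy hxs hws
    · exact h3_3_1 x y z w s (t 0) (t 1) (t 2) (t 3) hxy hxs hws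
    · exact h3_3_2 x y z w s (t 0) (t 1) (t 2) (t 3) hxy hxs hws
    · exact h3_3_3 x y z w s (t 0) (t 1) (t 2) (t 3) hxy hxs hws
  rw [key, ht]
  fin_cases k <;> simp [s2_3]

end

/-- elements acting null-homotopically (weak form) -/
def NH (x y z w s f : R) : Prop :=
  (∀ v, d1L x y z w s v = 0 → ∃ u, d2L x y z w s u = f • v) ∧
  (∀ u, d2L x y z w s u = 0 → ∃ t, d3L x y z w s t = f • u)

lemma NH.add {x y z w s f g : R} (hf : NH x y z w s f) (hg : NH x y z w s g) :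
    NH x y z w s (f + g) := by
  refine ⟨fun v hv => ?_, fun v hv => ?_⟩
  · obtain ⟨a, ha⟩ := hf.1 v hv
    obtain ⟨b, hb⟩ := hg.1 v hv
    exact ⟨a + b, by rw [map_add, ha, hb, add_smul]⟩
  · obtain ⟨a, ha⟩ := hf.2 v hv
    obtain ⟨b, hb⟩ := hg.2 v hv
    exact ⟨a + b, by rw [map_add, ha, hb, add_smul]⟩

lemma NH.mul {x y z w s f : R} (r : R) (hf : NH x y z w s f) : NH x y z w s (r * f) := by
  refine ⟨fun v hv => ?_, fun v hv => ?_⟩
  · obtain ⟨a, ha⟩ := hf.1 v hv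
    exact ⟨r • a, by rw [map_smul, ha, mul_smul]⟩
  · obtain ⟨a, ha⟩ := hf.2 v hv
    exact ⟨r • a, by rw [map_smul, ha, mul_smul]⟩

lemma NH.unit {x y z w s f : R} (hu : IsUnit (1 - w)) (hf : NH x y z w s ((1 - w) * f)) :
    NH x y z w s f := by
  obtain ⟨e, he⟩ := hu
  have h := NH.mul (((e⁻¹ : Rˣ) : R)) hf
  rw [← he, ← mul_assoc, Units.inv_mul, one_mul] at h
  exact h

lemma NH_0 (x y z w s : R) (hxy : x * y = z * w) (hxs : x * s = 0) (hws : w * s = 0)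
    (hu : IsUnit (1 - w)) : NH x y z w s (y ^ 3) := by
  apply NH.unit hu
  exact ⟨fun v hv => ⟨_, H1_0 x y z w s hxy hxs hws v hv⟩,
    fun v hv => ⟨_, H2_0 x y z w s hxy hxs hws v hv⟩⟩

lemma NH_1 (x y z w s : R) (hxy : x * y = z * w) (hxs : x * s = 0) (hws : w * s = 0)
    (hu : IsUnit (1 - w)) : NH x y z w s (z ^ 2) := by
  apply NH.unit hu
  exact ⟨fun v hv => ⟨_, H1_1 x y z w s hxy hxs hws v hv⟩,
    fun v hv => ⟨_, H2_1 x y z w s hxy hxs hws v hv⟩⟩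

lemma NH_2 (x y z w s : R) (hxy : x * y = z * w) (hxs : x * s = 0) (hws : w * s = 0)
    (hu : IsUnit (1 - w)) : NH x y z w s (y ^ 2 * z + y ^ 2 * w ^ 2) := by
  apply NH.unit hu
  exact ⟨fun v hv => ⟨_, H1_2 x y z w s hxy hxs hws v hv⟩,
    fun v hv => ⟨_, H2_2 x y z w s hxy hxs hws v hv⟩⟩

lemma NH_3 (x y z w s : R) (hxy : x * y = z * w) (hxs : x * s = 0) (hws : w * s = 0)
    (hu : IsUnit (1 - w)) : NH x y z w s (x ^ 2 + z * s ^ 2) := by
  apply NH.unit hu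
  exact ⟨fun v hv => ⟨_, H1_3 x y z w s hxy hxs hws v hv⟩,
    fun v hv => ⟨_, H2_3 x y z w s hxy hxs hws v hv⟩⟩

lemma NH_F (x y z w s : R) (hxy : x * y = z * w) (hxs : x * s = 0) (hws : w * s = 0)
    (hu : IsUnit (1 - w)) : NH x y z w s ((x - y) ^ 4) := by
  have h := ((NH.mul (x ^ 2 - 4 * x * y + 6 * y ^ 2) (NH_3 x y z w s hxy hxs hws hu)).add
    (NH.mul (-6 * s ^ 2) (NH_2 x y z w s hxy hxs hws hu))).add
    (NH.mul (y - 4 * x) (NH_0 x y z w s hxy hxs hws hu))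
  have e : (x - y) ^ 4 = (x ^ 2 - 4 * x * y + 6 * y ^ 2) * (x ^ 2 + z * s ^ 2) +
      (-6 * s ^ 2) * (y ^ 2 * z + y ^ 2 * w ^ 2) + (y - 4 * x) * (y ^ 3) := by
    linear_combination (-(x * z * s) + 4 * y * z * s) * hxs + (6 * y ^ 2 * w * s) * hws
  rw [e]
  exact h

theorem exact_all (x y z w s : R) (hxy : x * y = z * w) (hxs : x * s = 0) (hws : w * s = 0)
    (hu : IsUnit (1 - w)) (hr : Reg3 ((x - y) ^ 4) (z ^ 2) ((s + w) ^ 4)) :
    Function.Injective (d3L x y z w s) ∧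
    (∀ v, d2L x y z w s v = 0 → ∃ u, d3L x y z w s u = v) ∧
    (∀ v, d1L x y z w s v = 0 → ∃ u, d2L x y z w s u = v) := by
  have hF := NH_F x y z w s hxy hxs hws hu
  have hG : NH x y z w s (z ^ 2) := NH_1 x y z w s hxy hxs hws hu
  set F := (x - y) ^ 4 with hFdef
  set G := z ^ 2 with hGdef
  set H := (s + w) ^ 4 with hHdef
  -- regularity on vectors
  have rF : ∀ {n : ℕ} (v : Fin n → R), F • v = 0 → v = 0 := by
    intro n v h
    funext k
    exact hr.hF _ (congrFun h k)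
  have rG : ∀ {n : ℕ} (a b : Fin n → R), G • a = F • b → ∃ a' : Fin n → R, a = F • a' := by
    intro n a b h
    choose f hf using fun k => hr.hG (a k) (b k) (congrFun h k)
    exact ⟨f, funext hf⟩
  have rH : ∀ {n : ℕ} (c p q : Fin n → R), H • c = F • p + G • q →
      ∃ p' q' : Fin n → R, c = F • p' + G • q' := by
    intro n c p q h
    choose f g hfg using fun k => hr.hH (c k) (p k) (q k) (congrFun h k)
    exact ⟨f, g, funext hfg⟩
  have lf3 : ∀ t : Fin 4 → R, lfL x y z w s (d3L x y z w s t) = ((1 - w) * H) • t := by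
    intro t
    funext k
    exact lfd3 x y z w s hxy hxs hws t k
  have inj : ∀ t : Fin 4 → R, d3L x y z w s t = 0 → t = 0 := by
    intro t ht
    apply rF t
    funext k
    obtain ⟨e, he⟩ := hu
    have cancel : ∀ a : R, (1 - w) * a = 0 → a = 0 := by
      intro a ha
      have : ((e⁻¹ : Rˣ) : R) * ((1 - w) * a) = 0 := by rw [ha, mul_zero]
      rwa [← he, ← mul_assoc, Units.inv_mul, one_mul] at this
    have a0 := cancel _ (by rw [← mul_assoc]; exact H3_0 x y z w s hxy hxs hws t ht k)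
    have a2 := cancel _ (by rw [← mul_assoc]; exact H3_2 x y z w s hxy hxs hws t ht k)
    have a3 := cancel _ (by rw [← mul_assoc]; exact H3_3 x y z w s hxy hxs hws t ht k)
    show F * t k = 0
    rw [hFdef]
    linear_combination (x ^ 2 - 4 * x * y + 6 * y ^ 2) * a3 + (-6 * s ^ 2) * a2 +
      (y - 4 * x) * a0 + (-(x * z * s) + 4 * y * z * s) * t k * hxs +
      (6 * y ^ 2 * w * s) * t k * hws
  have Finj : ∀ {n : ℕ} (u v : Fin n → R), F • u = F • v → u = v := by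
    intro n u v h
    have := rF (u - v) (by rw [smul_sub, h, sub_self])
    exact sub_eq_zero.mp this
  have ex2 : ∀ v, d2L x y z w s v = 0 → ∃ u, d3L x y z w s u = v := by
    intro v hv
    obtain ⟨a, ha⟩ := hF.2 v hv
    obtain ⟨b, hb⟩ := hG.2 v hv
    have h1 : G • a = F • b := by
      have : d3L x y z w s (G • a - F • b) = 0 := by
        rw [map_sub, map_smul, map_smul, ha, hb, smul_comm, sub_self]
      exact sub_eq_zero.mp (inj _ this)
    obtain ⟨a', rfl⟩ := rG a b h1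
    refine ⟨a', Finj _ _ ?_⟩
    rw [← map_smul, ha]
  refine ⟨?_, ex2, ?_⟩
  · intro t t' h
    exact sub_eq_zero.mp (inj _ (by rw [map_sub, h, sub_self]))
  · intro v hv
    obtain ⟨a, ha⟩ := hF.1 v hv
    obtain ⟨b, hb⟩ := hG.1 v hv
    obtain ⟨c, hc⟩ := ex2 (G • a - F • b) (by
      rw [map_sub, map_smul, map_smul, ha, hb, smul_comm, sub_self])
    have h1 : ((1 - w) * H) • c = G • lfL x y z w s a - F • lfL x y z w s b := by
      rw [← lf3 c, hc, map_sub, map_smul, map_smul]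
    obtain ⟨e, he⟩ := hu
    have h2 : H • c = F • (-(((e⁻¹ : Rˣ) : R) • lfL x y z w s b)) +
        G • (((e⁻¹ : Rˣ) : R) • lfL x y z w s a) := by
      have h3 : (((e⁻¹ : Rˣ) : R) * ((1 - w) * H)) • c =
          ((e⁻¹ : Rˣ) : R) • (G • lfL x y z w s a - F • lfL x y z w s b) := by
        rw [mul_smul, h1]
      rw [← he, ← mul_assoc, Units.inv_mul, one_mul] at h3
      rw [h3, smul_sub, smul_comm _ G, smul_comm _ F, smul_neg]
      abel
    obtain ⟨p, q, hpq⟩ := rH c _ _ h2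
    have h3 : G • (a - d3L x y z w s q) = F • (b + d3L x y z w s p) := by
      have h4 : G • a - F • b = F • d3L x y z w s p + G • d3L x y z w s q := by
        rw [← hc, hpq, map_add, map_smul, map_smul]
      rw [smul_sub, smul_add]
      rw [sub_eq_iff_eq_add] at h4 ⊢
      rw [h4]
      abel
    obtain ⟨a', ha'⟩ := rG _ _ h3
    refine ⟨a', Finj _ _ ?_⟩
    rw [← map_smul, ← ha', map_sub, ha, d2d3 x y z w s hxy hxs hws, sub_zero]

/-- The ideal is the range of the first map. -/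
theorem range_d1L (x y z w s : R) :
    (LinearMap.range (d1L x y z w s) : Ideal R) = cI x y z w s := by
  apply le_antisymm
  · rintro _ ⟨v, rfl⟩
    have e : d1L x y z w s v = ∑ i, v i * gens x y z w s i := by
      show d1f x y z w s v = _
      simp only [d1f, Fin.sum_univ_succ, gens, Fin.sum_univ_zero]
      simp
      ring
    rw [e]
    exact Ideal.sum_mem _ fun i _ => Ideal.mul_mem_left _ _ (Ideal.subset_span ⟨i, rfl⟩)
  · rw [cI, Ideal.span_le]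
    rintro _ ⟨i, rfl⟩
    refine ⟨Pi.single i 1, ?_⟩
    show d1f x y z w s (Pi.single i 1) = _
    fin_cases i <;> simp [d1f, gens, Pi.single_apply] <;> ring

theorem finRes_main (hres : TaskRes) (x y z w s : R) (hxy : x * y = z * w) (hxs : x * s = 0)
    (hws : w * s = 0) (hu : IsUnit (1 - w))
    (hr : Reg3 ((x - y) ^ 4) (z ^ 2) ((s + w) ^ 4)) :
    FinRes R (R ⧸ cI x y z w s) := by
  obtain ⟨h3, h2, h1⟩ := exact_all x y z w s hxy hxs hws hu hr
  have := hres R 7 10 4 (d1L x y z w s) (d2L x y z w s) (d3L x y z w s)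
    (d1d2 x y z w s hxy hxs hws) (d2d3 x y z w s hxy hxs hws) h3 h2 h1
  rw [range_d1L] at this
  exact this

end Pool.Agent.H607R3.PS
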