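import Mathlib
import Pool.Agent.H607R3.PS.Exact

set_option autoImplicit false
set_option linter.all false

namespace Pool.Agent.H607R3.PS

open IsLocalRing RR

variable {T : Type} [CommRing T] {α β γ : T}

lemma emb_mul_a (t : T) (u : RR T α β γ) : ((emb t : RR T α β γ) * u).a = t * u.a := by simp
lemma emb_mul_b (t : T) (u : RR T α β γ) : ((emb t : RR T α β γ) * u).b = t * u.b := by simp
lemma emb_mul_c (t : T) (u : RR T α β γ) : ((emb t : RR T α β γ) * u).c = t * u.c := by simp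

/-- Regularity passes from T to the free T-algebra RR. -/
theorem reg_RR {F G H : T} (h : Reg3 F G H) :
    Reg3 (emb F : RR T α β γ) (emb G : RR T α β γ) (emb H : RR T α β γ) where
  hF := by
    intro a ha
    have h1 := congrArg RR.a ha
    have h2 := congrArg RR.b ha
    have h3 := congrArg RR.c ha
    rw [emb_mul_a] at h1
    rw [emb_mul_b] at h2
    rw [emb_mul_c] at h3
    exact RR.ext (h.hF _ h1) (h.hF _ h2) (h.hF _ h3)
  hG := by
    intro a b hab
    have h1 := congrArg RR.a hab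
    have h2 := congrArg RR.b hab
    have h3 := congrArg RR.c hab
    rw [emb_mul_a, emb_mul_a] at h1
    rw [emb_mul_b, emb_mul_b] at h2
    rw [emb_mul_c, emb_mul_c] at h3
    obtain ⟨u1, e1⟩ := h.hG _ _ h1
    obtain ⟨u2, e2⟩ := h.hG _ _ h2
    obtain ⟨u3, e3⟩ := h.hG _ _ h3
    refine ⟨⟨u1, u2, u3⟩, RR.ext ?_ ?_ ?_⟩
    · rw [emb_mul_a]; exact e1
    · rw [emb_mul_b]; exact e2
    · rw [emb_mul_c]; exact e3
  hH := by
    intro c p q hc
    have h1 := congrArg RR.a hc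
    have h2 := congrArg RR.b hc
    have h3 := congrArg RR.c hc
    rw [add_a, emb_mul_a, emb_mul_a, emb_mul_a] at h1
    rw [add_b, emb_mul_b, emb_mul_b, emb_mul_b] at h2
    rw [add_c, emb_mul_c, emb_mul_c, emb_mul_c] at h3
    obtain ⟨p1, q1, e1⟩ := h.hH _ _ _ h1
    obtain ⟨p2, q2, e2⟩ := h.hH _ _ _ h2
    obtain ⟨p3, q3, e3⟩ := h.hH _ _ _ h3
    refine ⟨⟨p1, p2, p3⟩, ⟨q1, q2, q3⟩, RR.ext ?_ ?_ ?_⟩
    · rw [add_a, emb_mul_a, emb_mul_a]; exact e1
    · rw [add_b, emb_mul_b, emb_mul_b]; exact e2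
    · rw [add_c, emb_mul_c, emb_mul_c]; exact e3

/-- `1 - w` is a unit of RR. -/
theorem isUnit_one_sub_w [IsLocalRing T] (hγ : γ ∈ maximalIdeal T) :
    IsUnit (1 - w : RR T α β γ) := by
  have hu : IsUnit (1 - γ) := by
    by_contra hcon
    have h1 : (1 - γ) ∈ maximalIdeal T := (mem_maximalIdeal _).mpr hcon
    have : (1 : T) ∈ maximalIdeal T := by
      have := Ideal.add_mem _ h1 hγ
      simpa using this
    exact (Ideal.ne_top_iff_one _).mp (maximalIdeal.isMaximal T).ne_top this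
  obtain ⟨e, he⟩ := hu
  have h2 : ((e⁻¹ : Tˣ) : T) * (1 - γ) = 1 := by rw [← he, Units.inv_mul]
  -- inverse is 1 + e⁻¹ w
  refine IsUnit.of_mul_eq_one (⟨1, 0, ((e⁻¹ : Tˣ) : T)⟩ : RR T α β γ) ?_
  ext
  · simp [w]
  · simp [w]
  · simp only [mul_c, sub_a, sub_b, sub_c, one_a, one_b, one_c, w]
    linear_combination h2

theorem finRes_RR (hres : TaskRes) [IsLocalRing T] (hγ : γ ∈ maximalIdeal T)
    (hr : Reg3 (α ^ 4) (β ^ 2) (γ ^ 4)) :
    FinRes (RR T α β γ) (RR T α β γ ⧸ cI (x : RR T α β γ) y z w s) := by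
  apply finRes_main hres x y z w s xy xs ws (isUnit_one_sub_w hγ)
  rw [x_sub_y, z_eq, s_add_w, ← map_pow, ← map_pow, ← map_pow]
  exact reg_RR hr

theorem finRes_RP (hres : TaskRes) (hrp : TaskRegP) [IsLocalRing T] (hγ : γ ∈ maximalIdeal T)
    (hr : Reg3 (α ^ 4) (β ^ 2) (γ ^ 4)) :
    FinRes (RP T α β γ) (RP T α β γ ⧸ cP T α β γ) := by
  apply finRes_main hres (toRP (x : RR T α β γ)) (toRP y) (toRP z) (toRP w) (toRP s)
  · rw [← map_mul, xy, map_mul]
  · rw [← map_mul, xs, map_zero]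
  · rw [← map_mul, ws, map_zero]
  · have := (isUnit_one_sub_w (α := α) (β := β) hγ).map (toRP : RR T α β γ →+* RP T α β γ)
    rwa [map_sub, map_one] at this
  · have e1 : toRP (x : RR T α β γ) - toRP (y : RR T α β γ) = toRP (emb α : RR T α β γ) := by
      rw [← map_sub, x_sub_y]
    have e2 : toRP (s : RR T α β γ) + toRP (w : RR T α β γ) = toRP (emb γ : RR T α β γ) := by
      rw [← map_add, s_add_w]
    rw [e1, e2, z_eq]
    exact hrp T α β γ hr

end Pool.Agent.H607R3.PS
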