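import Mathlib
import Pool.Agent.H607R3.PS.RegR

set_option autoImplicit false
set_option linter.all false

namespace Pool.Agent.H607R3.PS

open IsLocalRing RR

variable {T : Type} [CommRing T] {α β γ : T}

/-- constant coefficient composed with the first coordinate is a ring map. -/
def fstR : RR T α β γ →+* T where
  toFun u := u.a
  map_one' := rfl
  map_zero' := rfl
  map_mul' := by intro u v; rfl
  map_add' := by intro u v; rfl

theorem nontrivial_RR [Nontrivial T] : Nontrivial (RR T α β γ) :=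
  ⟨0, 1, fun h => zero_ne_one (congrArg RR.a h)⟩

theorem nontrivial_RP [Nontrivial T] : Nontrivial (RP T α β γ) := by
  apply Ideal.Quotient.nontrivial_iff.mpr
  intro h
  have h1 : (1 : PowerSeries (RR T α β γ)) ∈
      (Ideal.span {PowerSeries.C (s : RR T α β γ) * PowerSeries.X} :
      Ideal (PowerSeries (RR T α β γ))) := by rw [h]; trivial
  rw [Ideal.mem_span_singleton] at h1
  obtain ⟨c, hc⟩ := h1
  have h2 := congrArg (fun f => (PowerSeries.constantCoeff (R := RR T α β γ) f).a) hc
  simp at h2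

theorem local_RP [IsLocalRing T] [IsLocalRing (RR T α β γ)] : IsLocalRing (RP T α β γ) := by
  haveI := nontrivial_RP (T := T) (α := α) (β := β) (γ := γ)
  exact IsLocalRing.of_surjective' (Ideal.Quotient.mk _) Ideal.Quotient.mk_surjective

theorem noeth_RP [IsNoetherianRing T] : IsNoetherianRing (RP T α β γ) := inferInstance

/-- a ring map from RP to T/m-like residue showing cP is proper -/
theorem cP_ne_top [IsLocalRing T] (hα : α ∈ maximalIdeal T) (hβ : β ∈ maximalIdeal T)
    (hγ : γ ∈ maximalIdeal T) : cP T α β γ ≠ ⊤ := by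
  have hker : ∀ f ∈ (Ideal.span {PowerSeries.C (s : RR T α β γ) * PowerSeries.X} :
      Ideal (PowerSeries (RR T α β γ))),
      ((residue T).comp ((fstR (T := T) (α := α) (β := β) (γ := γ)).comp
        (PowerSeries.constantCoeff (R := RR T α β γ)))) f = 0 := by
    intro f hf
    rw [Ideal.mem_span_singleton] at hf
    obtain ⟨c, rfl⟩ := hf
    simp
  let φ : RP T α β γ →+* ResidueField T := Ideal.Quotient.lift _ _ hker
  have hφ : ∀ u : RR T α β γ, φ (toRP u) = residue T u.a := by
    intro u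
    show φ (Ideal.Quotient.mk _ (PowerSeries.C u)) = _
    rw [Ideal.Quotient.lift_mk]
    simp [fstR]
  have rα : residue T α = 0 := (residue_eq_zero_iff α).mpr hα
  have rβ : residue T β = 0 := (residue_eq_zero_iff β).mpr hβ
  have rγ : residue T γ = 0 := (residue_eq_zero_iff γ).mpr hγ
  have hx : φ (toRP (x : RR T α β γ)) = 0 := by rw [hφ]; simp [x]
  have hw : φ (toRP (w : RR T α β γ)) = 0 := by rw [hφ]; simp [w]
  have hy : φ (toRP (y : RR T α β γ)) = 0 := by rw [hφ]; simp [y, rα]
  have hz : φ (toRP (z : RR T α β γ)) = 0 := by rw [hφ]; simp [z, rβ]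
  have hle : cP T α β γ ≤ RingHom.ker φ := by
    rw [cP, cI, Ideal.span_le]
    rintro _ ⟨i, rfl⟩
    show φ _ = 0
    fin_cases i <;> simp [gens, hx, hw, hy, hz]
  intro htop
  have : (1 : RP T α β γ) ∈ RingHom.ker φ := hle (by rw [htop]; trivial)
  rw [RingHom.mem_ker, map_one] at this
  exact one_ne_zero this

theorem mem_G : toRP (emb β : RR T α β γ) ^ 2 ∈ cP T α β γ := by
  have : toRP (emb β : RR T α β γ) ^ 2 =
      gens (toRP (x : RR T α β γ)) (toRP y) (toRP z) (toRP w) (toRP s) 1 := by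
    simp [gens, z_eq]
  rw [this]
  exact Ideal.subset_span ⟨1, rfl⟩

theorem mem_F : toRP (emb α : RR T α β γ) ^ 4 ∈ cP T α β γ := by
  have hxy : toRP (x : RR T α β γ) * toRP (y : RR T α β γ) =
      toRP (z : RR T α β γ) * toRP (w : RR T α β γ) := by rw [← map_mul, xy, map_mul]
  have hxs : toRP (x : RR T α β γ) * toRP (s : RR T α β γ) = 0 := by
    rw [← map_mul, xs, map_zero]
  have hws : toRP (w : RR T α β γ) * toRP (s : RR T α β γ) = 0 := by
    rw [← map_mul, ws, map_zero]
  have e1 : toRP (emb α : RR T α β γ) = toRP (x : RR T α β γ) - toRP (y : RR T α β γ) := by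
    rw [← map_sub, x_sub_y]
  rw [e1]
  have e : (toRP (x : RR T α β γ) - toRP (y : RR T α β γ)) ^ 4 =
      (toRP (x : RR T α β γ) ^ 2 - 4 * toRP (x : RR T α β γ) * toRP (y : RR T α β γ) +
        6 * toRP (y : RR T α β γ) ^ 2) *
        gens (toRP (x : RR T α β γ)) (toRP y) (toRP z) (toRP w) (toRP s) 3 +
      (-6 * toRP (s : RR T α β γ) ^ 2) *
        gens (toRP (x : RR T α β γ)) (toRP y) (toRP z) (toRP w) (toRP s) 2 +
      (toRP (y : RR T α β γ) - 4 * toRP (x : RR T α β γ)) *
        gens (toRP (x : RR T α β γ)) (toRP y) (toRP z) (toRP w) (toRP s) 0 := by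
    have g0 : gens (toRP (x : RR T α β γ)) (toRP y) (toRP z) (toRP w) (toRP s) 0 =
      toRP (y : RR T α β γ) ^ 3 := rfl
    have g2 : gens (toRP (x : RR T α β γ)) (toRP y) (toRP z) (toRP w) (toRP s) 2 =
      toRP (y : RR T α β γ) ^ 2 * (toRP (z : RR T α β γ) + toRP (w : RR T α β γ) ^ 2) := rfl
    have g3 : gens (toRP (x : RR T α β γ)) (toRP y) (toRP z) (toRP w) (toRP s) 3 =
      toRP (x : RR T α β γ) ^ 2 + toRP (s : RR T α β γ) ^ 2 * toRP (z : RR T α β γ) := rfl
    rw [g0, g2, g3]
    linear_combination (-(toRP (x : RR T α β γ) * toRP (z : RR T α β γ) *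
      toRP (s : RR T α β γ)) + 4 * toRP (y : RR T α β γ) * toRP (z : RR T α β γ) *
      toRP (s : RR T α β γ)) * hxs + (6 * toRP (y : RR T α β γ) ^ 2 *
      toRP (w : RR T α β γ) * toRP (s : RR T α β γ)) * hws
  rw [e]
  exact Ideal.add_mem _ (Ideal.add_mem _
    (Ideal.mul_mem_left _ _ (Ideal.subset_span ⟨3, rfl⟩))
    (Ideal.mul_mem_left _ _ (Ideal.subset_span ⟨2, rfl⟩)))
    (Ideal.mul_mem_left _ _ (Ideal.subset_span ⟨0, rfl⟩))

/-- a pair from `Reg3` is a weakly regular sequence -/
theorem weaklyRegular_pair {A : Type} [CommRing A] {F G H : A} (h : Reg3 F G H) :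
    RingTheory.Sequence.IsWeaklyRegular A [F, G] := by
  rw [RingTheory.Sequence.isWeaklyRegular_cons_iff]
  refine ⟨?_, ?_⟩
  · intro a b hab
    have : F * (a - b) = 0 := by
      have : F * a = F * b := hab
      rw [mul_sub, this, sub_self]
    exact sub_eq_zero.mp (h.hF _ this)
  · rw [RingTheory.Sequence.isWeaklyRegular_cons_iff]
    refine ⟨?_, RingTheory.Sequence.IsWeaklyRegular.nil _ _⟩
    intro a b hab
    obtain ⟨a, rfl⟩ := Submodule.Quotient.mk_surjective _ a
    obtain ⟨b, rfl⟩ := Submodule.Quotient.mk_surjective _ b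
    have h1 : Submodule.Quotient.mk (G • a) =
        (Submodule.Quotient.mk (G • b) : QuotSMulTop F A) := hab
    rw [Submodule.Quotient.eq] at h1
    have h2 : ∃ c : A, G * (a - b) = F * c := by
      obtain ⟨c, -, hc⟩ := Submodule.mem_smul_pointwise_iff_exists _ _ _ |>.mp h1
      refine ⟨c, ?_⟩
      have : F * c = G * a - G * b := hc
      rw [this]; ring
    obtain ⟨c, hc⟩ := h2
    obtain ⟨a', ha'⟩ := h.hG _ _ hc
    rw [Submodule.Quotient.eq, ha']
    exact Submodule.smul_mem_pointwise_smul _ _ _ trivial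

end Pool.Agent.H607R3.PS
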