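import Pool.Agent.H607R3.PS.Stmts

set_option autoImplicit false

/-! # TASK Len -/

namespace Pool.Agent.H607R3.PS.Len

open IsLocalRing TensorProduct

theorem finLen {T R M : Type} [CommRing T] [IsLocalRing T] [IsNoetherianRing T] [CommRing R]
    [IsNoetherianRing R] [Algebra T R] [AddCommGroup M] [Module R M] [Module T M]
    [IsScalarTower T R M] [Module.Finite T M] (K : Ideal T)
    (hK : ∀ p : Ideal T, p.IsPrime → K ≤ p → maximalIdeal T ≤ p)
    (h : ∀ k ∈ K, ∀ m : M, k • m = 0) : IsFiniteLength R M := by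
  have hdim : Ring.KrullDimLE 0 (T ⧸ K) := by
    refine Ring.KrullDimLE.mk₀ fun I hI => ?_
    have hp : (I.comap (Ideal.Quotient.mk K)).IsPrime := Ideal.comap_isPrime _ _
    have h1 : K ≤ I.comap (Ideal.Quotient.mk K) := by
      intro k hk
      rw [Ideal.mem_comap, Ideal.Quotient.eq_zero_iff_mem.2 hk]
      exact zero_mem _
    have h2 := hK _ hp h1
    have h3 : I.comap (Ideal.Quotient.mk K) = maximalIdeal T :=
      le_antisymm (le_maximalIdeal hp.ne_top) h2
    have h4 : (I.comap (Ideal.Quotient.mk K)).IsMaximal := by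
      rw [h3]
      infer_instance
    have h5 := Ideal.map_comap_of_surjective (Ideal.Quotient.mk K) Ideal.Quotient.mk_surjective I
    rcases Ideal.map_eq_top_or_isMaximal_of_surjective (Ideal.Quotient.mk K)
      Ideal.Quotient.mk_surjective h4 with h6 | h6
    · rw [h5] at h6
      exact absurd h6 hI.ne_top
    · rw [h5] at h6
      exact h6
  have hArt : IsArtinianRing (T ⧸ K) := IsNoetherianRing.isArtinianRing_of_krullDimLE_zero
  have hM : Module.IsTorsionBySet T M K := fun m k => h k.1 k.2 m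
  have h1 : IsArtinian T M := by
    letI := hM.module
    haveI : IsScalarTower T (T ⧸ K) M := hM.isScalarTower
    haveI : Module.Finite (T ⧸ K) M := Module.Finite.of_restrictScalars_finite T (T ⧸ K) M
    have h2 : IsArtinian (T ⧸ K) M := inferInstance
    exact (hM.semilinearMap.isArtinian_iff_of_bijective Function.bijective_id).2 h2
  have h2 : IsArtinian R M := isArtinian_of_tower T h1
  have h3 : Module.Finite R M := Module.Finite.of_restrictScalars_finite T R M
  exact isFiniteLength_iff_isNoetherian_isArtinian.2 ⟨inferInstance, h2⟩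

open RR in
theorem taskLen : TaskLen := by
  intro T _ _ _ _ α β γ hB
  have hfin : Module.Finite T ((RR T α β γ ⧸ cI (x : RR T α β γ) y z w s) ⊗[RR T α β γ]
      (RR T α β γ ⧸ (Ideal.span {s} : Ideal (RR T α β γ)))) := Module.Finite.trans (RR T α β γ) _
  let Ann : Ideal (RR T α β γ) := Module.annihilator (RR T α β γ)
    ((RR T α β γ ⧸ cI (x : RR T α β γ) y z w s) ⊗[RR T α β γ]
      (RR T α β γ ⧸ (Ideal.span {s} : Ideal (RR T α β γ))))
  have hI : cI (x : RR T α β γ) y z w s ≤ Ann := by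
    intro r hr
    rw [Module.mem_annihilator]
    intro m
    induction m with
    | zero => exact smul_zero _
    | add m m' h1 h2 => rw [smul_add, h1, h2, add_zero]
    | tmul a b =>
      obtain ⟨a, rfl⟩ := Ideal.Quotient.mk_surjective a
      have h1 : r • (Ideal.Quotient.mk (cI (x : RR T α β γ) y z w s) a) = 0 := by
        rw [← Ideal.Quotient.mk_eq_mk, ← Submodule.Quotient.mk_smul, smul_eq_mul,
          Ideal.Quotient.mk_eq_mk, Ideal.Quotient.eq_zero_iff_mem]
        exact Ideal.mul_mem_right _ _ hr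
      rw [TensorProduct.smul_tmul', h1, TensorProduct.zero_tmul]
  have hJ : (Ideal.span {s} : Ideal (RR T α β γ)) ≤ Ann := by
    intro r hr
    rw [Module.mem_annihilator]
    intro m
    induction m with
    | zero => exact smul_zero _
    | add m m' h1 h2 => rw [smul_add, h1, h2, add_zero]
    | tmul a b =>
      obtain ⟨b, rfl⟩ := Ideal.Quotient.mk_surjective b
      have h1 : r • (Ideal.Quotient.mk (Ideal.span {s} : Ideal (RR T α β γ)) b) = 0 := by
        rw [← Ideal.Quotient.mk_eq_mk, ← Submodule.Quotient.mk_smul, smul_eq_mul,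
          Ideal.Quotient.mk_eq_mk, Ideal.Quotient.eq_zero_iff_mem]
        exact Ideal.mul_mem_right _ _ hr
      rw [← TensorProduct.tmul_smul, h1, TensorProduct.tmul_zero]
  have hs : (s : RR T α β γ) ∈ Ann := hJ (Ideal.mem_span_singleton_self s)
  have hg : ∀ i : Fin 7, gens (x : RR T α β γ) y z w s i ∈ Ann := fun i =>
    hI (Ideal.subset_span ⟨i, rfl⟩)
  have hy3 : (y : RR T α β γ) ^ 3 ∈ Ann := hg 0
  have hz2 : (z : RR T α β γ) ^ 2 ∈ Ann := hg 1
  have hx2 : (x : RR T α β γ) ^ 2 ∈ Ann := by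
    have h1 : (x : RR T α β γ) ^ 2 + s ^ 2 * z ∈ Ann := hg 3
    have h2 : (x : RR T α β γ) ^ 2 = (x ^ 2 + s ^ 2 * z) - (s * z) * s := by ring
    rw [h2]
    exact Ideal.sub_mem _ h1 (Ideal.mul_mem_left _ _ hs)
  have hw4 : (w : RR T α β γ) ^ 4 ∈ Ann := by
    have h1 : (w : RR T α β γ) ^ 4 + s * y * z ∈ Ann := hg 4
    have h2 : (w : RR T α β γ) ^ 4 = (w ^ 4 + s * y * z) - (y * z) * s := by ring
    rw [h2]
    exact Ideal.sub_mem _ h1 (Ideal.mul_mem_left _ _ hs)
  have hα : (emb α : RR T α β γ) ^ 4 ∈ Ann := by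
    rw [← x_sub_y]
    have h2 : ((x : RR T α β γ) - y) ^ 4 = (x ^ 2 - 4 * x * y + 6 * y ^ 2) * x ^ 2 +
        (y - 4 * x) * y ^ 3 := by ring
    rw [h2]
    exact Ideal.add_mem _ (Ideal.mul_mem_left _ _ hx2) (Ideal.mul_mem_left _ _ hy3)
  have hβ : (emb β : RR T α β γ) ^ 2 ∈ Ann := by
    rw [← z_eq]
    exact hz2
  have hγ : (emb γ : RR T α β γ) ^ 4 ∈ Ann := by
    rw [← s_add_w]
    have h2 : ((s : RR T α β γ) + w) ^ 4 = (s ^ 3 + 4 * s ^ 2 * w + 6 * s * w ^ 2 + 4 * w ^ 3) * s +
        w ^ 4 := by ring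
    rw [h2]
    exact Ideal.add_mem _ (Ideal.mul_mem_left _ _ hs) hw4
  refine finLen (T := T) (Ideal.span {α ^ 4, β ^ 2, γ ^ 4}) ?_ ?_
  · intro p hp hKp
    have h1 : α ∈ p := hp.mem_of_pow_mem 4 (hKp (Ideal.subset_span (by simp)))
    have h2 : β ∈ p := hp.mem_of_pow_mem 2 (hKp (Ideal.subset_span (by simp)))
    have h3 : γ ∈ p := hp.mem_of_pow_mem 4 (hKp (Ideal.subset_span (by simp)))
    rw [hB.max, Ideal.span_le]
    rintro t (rfl | rfl | rfl)
    · exact h1
    · exact h2
    · exact h3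
  · have h1 : Ideal.span {α ^ 4, β ^ 2, γ ^ 4} ≤ Ann.comap (emb : T →+* RR T α β γ) := by
      rw [Ideal.span_le]
      rintro t (rfl | rfl | rfl)
      · change emb (α ^ 4) ∈ Ann
        rw [map_pow]
        exact hα
      · change emb (β ^ 2) ∈ Ann
        rw [map_pow]
        exact hβ
      · change emb (γ ^ 4) ∈ Ann
        rw [map_pow]
        exact hγ
    intro k hk m
    have h2 : (emb k : RR T α β γ) ∈ Ann := h1 hk
    rw [Module.mem_annihilator] at h2
    have h3 := h2 m
    rw [← algebraMap_eq] at h3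
    rw [← algebraMap_smul (RR T α β γ) k m]
    exact h3

end Pool.Agent.H607R3.PS.Len
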